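import Mathlib

/-! Vectors in a hyperplane: there is a nonnegative functional with small support whose zero set is
linearly independent. -/

set_option autoImplicit false

namespace Pool.Agent.Q68.SM

open Finset

/-- **Simplicial faces.** -/
theorem face {ι V : Type*} [Fintype ι] [DecidableEq ι] [AddCommGroup V] [Module ℝ V]
    [FiniteDimensional ℝ V] (v : ι → V) (ℓ₀ : V →ₗ[ℝ] ℝ) (h0 : ∀ a, ℓ₀ (v a) = 1) :
    ∃ ℓ : V →ₗ[ℝ] ℝ, (∀ a, 0 ≤ ℓ (v a)) ∧
      LinearIndependent ℝ (fun a : {a // ℓ (v a) = 0} => v a) ∧
      (univ.filter fun a => ℓ (v a) ≠ 0).card +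
        2 * Module.finrank ℝ (Submodule.span ℝ (Set.range v)) ≤ 2 * Fintype.card ι := by
  classical
  obtain ⟨κ, f, hf, hspan, hli⟩ := exists_linearIndependent' ℝ v
  haveI : Finite κ := Finite.of_injective f hf
  haveI : Fintype κ := Fintype.ofFinite κ
  have hcardκ : Fintype.card κ = Module.finrank ℝ (Submodule.span ℝ (Set.range v)) := by
    rw [← hspan]
    exact (finrank_span_eq_card hli).symm
  -- the other vectors
  set B : Finset ι := univ.filter fun a => a ∉ Set.range f with hB
  have hBcard : B.card + Fintype.card κ = Fintype.card ι := by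
    have h1 : (univ.image f).card = Fintype.card κ := by
      rw [card_image_of_injective _ hf, card_univ]
    have h2 : B = (univ.image f)ᶜ := by
      ext a
      simp [hB]
    rw [h2, card_compl, h1]
    have := Fintype.card_le_of_injective f hf
    omega
  -- good functionals
  let good : (V →ₗ[ℝ] ℝ) → Prop := fun ℓ => (∀ a, 0 ≤ ℓ (v a)) ∧ ∀ b ∈ B, ℓ (v b) = 1
  have hgood0 : good ℓ₀ := ⟨fun a => by rw [h0]; exact zero_le_one, fun b _ => h0 b⟩
  have hex : ∃ n : ℕ, ∃ ℓ, good ℓ ∧ (univ.filter fun k : κ => ℓ (v (f k)) ≠ 0).card = n :=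
    ⟨_, ℓ₀, hgood0, rfl⟩
  obtain ⟨ℓ, hgood, hcard⟩ := Nat.find_spec hex
  have hmin : ∀ ℓ', good ℓ' → Nat.find hex ≤ (univ.filter fun k : κ => ℓ' (v (f k)) ≠ 0).card :=
    fun ℓ' h' => Nat.find_min' hex ⟨ℓ', h', rfl⟩
  set T : Finset κ := univ.filter fun k : κ => ℓ (v (f k)) ≠ 0 with hT
  -- functionals with given values
  have hfun : ∀ r : κ → ℝ, ∃ η : V →ₗ[ℝ] ℝ, ∀ k, η (v (f k)) = r k := by
    intro r
    obtain ⟨η, hη⟩ := LinearMap.exists_extend ((Module.Basis.span hli).constr ℝ r)
    refine ⟨η, fun k => ?_⟩
    have h1 : (Module.Basis.span hli k : V) = v (f k) := by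
      rw [Module.Basis.span_apply]; rfl
    have h2 := congrArg (fun g => g (Module.Basis.span hli k)) hη
    simp only [LinearMap.comp_apply, Submodule.subtype_apply, Module.Basis.constr_basis] at h2
    rw [← h1]
    exact h2
  -- coefficients
  have hcoef : ∀ a, ∃ β : κ → ℝ, v a = ∑ k, β k • v (f k) := by
    intro a
    have : v a ∈ Submodule.span ℝ (Set.range (v ∘ f)) := by
      rw [hspan]; exact Submodule.subset_span ⟨a, rfl⟩
    obtain ⟨β, hβ⟩ := (Submodule.mem_span_range_iff_exists_fun ℝ).1 this
    exact ⟨β, hβ.symm⟩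
  choose β hβ using hcoef
  have hTB : T.card ≤ B.card := by
    by_contra hcon
    push Not at hcon
    -- a kernel vector
    let L : (T → ℝ) →ₗ[ℝ] (B → ℝ) :=
      { toFun := fun r b => ∑ k : T, β b k * r k
        map_add' := fun r r' => by
          ext b; simp [mul_add, sum_add_distrib]
        map_smul' := fun c r => by
          ext b; simp [mul_sum, mul_left_comm] }
    have hker : LinearMap.ker L ≠ ⊥ := by
      intro hbot
      have hinj := LinearMap.ker_eq_bot.1 hbot
      have := LinearMap.finrank_le_finrank_of_injective hinj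
      simp only [Module.finrank_fintype_fun_eq_card, Fintype.card_coe] at this
      omega
    obtain ⟨r, hr, hr0⟩ := (Submodule.ne_bot_iff _).1 hker
    have hpos : ∃ r : T → ℝ, L r = 0 ∧ ∃ k, 0 < r k := by
      obtain ⟨k, hk⟩ := Function.ne_iff.1 hr0
      rcases lt_or_gt_of_ne hk with h | h
      · exact ⟨-r, by rw [map_neg, LinearMap.mem_ker.1 hr, neg_zero], k, by simpa using h⟩
      · exact ⟨r, LinearMap.mem_ker.1 hr, k, h⟩
    obtain ⟨r, hr, k₀, hk₀⟩ := hpos
    obtain ⟨η, hη⟩ := hfun fun k => if h : k ∈ T then r ⟨k, h⟩ else 0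
    have hηT : ∀ k : T, η (v (f k)) = r k := by
      intro k
      rw [hη, dif_pos k.2]
    have hηn : ∀ k, k ∉ T → η (v (f k)) = 0 := by
      intro k hk
      rw [hη, dif_neg hk]
    have hηB : ∀ b ∈ B, η (v b) = 0 := by
      intro b hb
      rw [hβ b, map_sum]
      have h1 : ∑ k, η (β b k • v (f k)) = ∑ k ∈ T, β b k * η (v (f k)) := by
        rw [← sum_subset (subset_univ T)]
        · exact sum_congr rfl fun k _ => by rw [map_smul, smul_eq_mul]
        · intro k _ hk
          rw [map_smul, hηn k hk, smul_zero]
      rw [h1, ← sum_coe_sort T]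
      have h2 := congrFun hr ⟨b, hb⟩
      simp only [L, LinearMap.coe_mk, AddHom.coe_mk, Pi.zero_apply] at h2
      rw [← h2]
      exact sum_congr rfl fun k _ => by rw [hηT]
    -- the minimal ratio
    let P : Finset κ := T.filter fun k => 0 < η (v (f k))
    have hPne : P.Nonempty := ⟨k₀, by
      simp only [P, mem_filter]
      exact ⟨k₀.2, by rw [hηT]; exact hk₀⟩⟩
    obtain ⟨k₁, hk₁, hk₁min⟩ := exists_min_image P (fun k => ℓ (v (f k)) / η (v (f k))) hPne
    have hk₁' : k₁ ∈ T ∧ 0 < η (v (f k₁)) := by simpa only [P, mem_filter] using hk₁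
    set t : ℝ := ℓ (v (f k₁)) / η (v (f k₁)) with ht
    have ht0 : 0 ≤ t := div_nonneg (hgood.1 _) hk₁'.2.le
    have hℓ' : good (ℓ - t • η) := by
      refine ⟨fun a => ?_, fun b hb => ?_⟩
      · by_cases ha : a ∈ B
        · rw [LinearMap.sub_apply, LinearMap.smul_apply, hηB a ha, smul_zero, sub_zero]
          exact hgood.1 a
        · have : a ∈ Set.range f := by
            by_contra h
            exact ha (by simp only [hB, mem_filter, mem_univ, true_and]; exact h)
          obtain ⟨k, rfl⟩ := this
          rw [LinearMap.sub_apply, LinearMap.smul_apply, smul_eq_mul, sub_nonneg]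
          by_cases hk : k ∈ T
          · rcases lt_or_ge 0 (η (v (f k))) with h | h
            · have hkP : k ∈ P := by simp only [P, mem_filter]; exact ⟨hk, h⟩
              exact (le_div_iff₀ h).1 (hk₁min k hkP)
            · exact (mul_nonpos_of_nonneg_of_nonpos ht0 h).trans (hgood.1 _)
          · rw [hηn k hk, mul_zero]
            exact hgood.1 _
      · rw [LinearMap.sub_apply, LinearMap.smul_apply, hηB b hb, smul_zero, sub_zero]
        exact hgood.2 b hb
    have hlt : (univ.filter fun k : κ => (ℓ - t • η) (v (f k)) ≠ 0).card < T.card := by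
      refine card_lt_card ?_
      refine ⟨?_, ?_⟩
      · intro k hk
        simp only [mem_filter, mem_univ, true_and] at hk
        by_contra hkT
        refine hk ?_
        rw [LinearMap.sub_apply, LinearMap.smul_apply, hηn k hkT, smul_zero, sub_zero]
        by_contra h
        exact hkT (by simp only [hT, mem_filter, mem_univ, true_and]; exact h)
      · intro hsub
        have := hsub hk₁'.1
        simp only [mem_filter, mem_univ, true_and] at this
        refine this ?_
        rw [LinearMap.sub_apply, LinearMap.smul_apply, smul_eq_mul, ht,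
          div_mul_cancel₀ _ hk₁'.2.ne', sub_self]
    have := hmin _ hℓ'
    rw [← hcard] at this
    omega
  refine ⟨ℓ, hgood.1, ?_, ?_⟩
  · have hsub : ∀ a : {a // ℓ (v a) = 0}, ∃ k, f k = a := by
      intro a
      by_contra h
      have : (a : ι) ∈ B := by simp only [hB, mem_filter, mem_univ, true_and]; exact h
      have h1 := hgood.2 a this
      rw [a.2] at h1
      exact zero_ne_one h1
    choose g hg using hsub
    have hginj : Function.Injective g := by
      intro a b h
      apply Subtype.ext
      rw [← hg a, ← hg b, h]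
    have h1 : (fun a : {a // ℓ (v a) = 0} => v a) = (v ∘ f) ∘ g := by
      funext a
      rw [Function.comp_apply, Function.comp_apply, hg]
    rw [h1]
    exact hli.comp g hginj
  · have h1 : (univ.filter fun a => ℓ (v a) ≠ 0) ⊆ B ∪ T.image f := by
      intro a ha
      simp only [mem_filter, mem_univ, true_and] at ha
      rw [mem_union]
      by_cases hab : a ∈ B
      · exact Or.inl hab
      · right
        have : a ∈ Set.range f := by
          by_contra h
          exact hab (by simp only [hB, mem_filter, mem_univ, true_and]; exact h)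
        obtain ⟨k, rfl⟩ := this
        exact mem_image_of_mem f (by simp only [hT, mem_filter, mem_univ, true_and]; exact ha)
    have h2 := (card_le_card h1).trans (card_union_le _ _)
    have h3 : (T.image f).card ≤ T.card := card_image_le
    omega

end Pool.Agent.Q68.SM
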