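import Pool.Agent.Q68.SM.Defs

/-!
# Coloured covers (the theorem of Ostrand and Kolmogorov's device)
-/

set_option autoImplicit false

namespace Pool.Agent.Q68.SM

open Filter Topology

/-- A colour: a family of disjoint open sets, given by the (partial) map which sends a point to its
member. -/
def IsColor {X ι : Type} [TopologicalSpace X] (L : X → Option ι) : Prop :=
  ∀ k, IsOpen {x | L x = some k}

/-- The members of the family are small. -/
def Small {X ι : Type} [MetricSpace X] (η : ℝ) (L : X → Option ι) : Prop :=
  ∀ x y k, L x = some k → L y = some k → dist x y < η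

theorem exists_fun {X : Type} [MetricSpace X] {V : Set X} (hV : IsOpen V) :
    ∃ f : X → ℝ, Continuous f ∧ (∀ x, 0 ≤ f x) ∧ ∀ x, 0 < f x ↔ x ∈ V := by
  refine ⟨fun x => (min 1 (Metric.infEDist x Vᶜ)).toReal, ?_, fun x => ENNReal.toReal_nonneg,
    fun x => ?_⟩
  · refine ENNReal.continuousOn_toReal.comp_continuous
      (continuous_const.min Metric.continuous_infEDist) fun x => ?_
    exact ne_top_of_le_ne_top ENNReal.one_ne_top (min_le_left _ _)
  · rw [ENNReal.toReal_pos_iff]
    constructor
    · rintro ⟨h, -⟩
      by_contra hx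
      rw [Metric.infEDist_zero_of_mem (show x ∈ Vᶜ from hx)] at h
      simp at h
    · intro hx
      refine ⟨lt_min one_pos ?_, lt_of_le_of_lt (min_le_left _ _) ENNReal.one_lt_top⟩
      rw [pos_iff_ne_zero]
      intro h
      rw [← Metric.mem_closure_iff_infEDist_zero, hV.isClosed_compl.closure_eq] at h
      exact h hx

/-- the first `n + 1` colours -/
theorem exists_colors_base {X : Type} [MetricSpace X] [CompactSpace X] {n : ℕ}
    (hX : CovDimLE X n) {η : ℝ} (hη : 0 < η) :
    ∃ (ι : Type) (L : Fin (n + 1) → X → Option ι), (∀ c, IsColor (L c)) ∧ (∀ c, Small η (L c)) ∧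
      ∀ x, ∃ c, L c x ≠ none := by
  classical
  -- a finite cover by small balls
  obtain ⟨s, -, hsfin, hs⟩ := (isCompact_univ (X := X)).finite_cover_balls
    (show 0 < η / 3 by positivity)
  obtain ⟨V, hVo, hVc, hVU, hVn⟩ := hX (hsfin.toFinset.image fun x => Metric.ball x (η / 3))
    (by
      intro u hu
      obtain ⟨x, -, rfl⟩ := Finset.mem_image.1 hu
      exact Metric.isOpen_ball)
    (by
      intro x
      obtain ⟨y, hy, hxy⟩ := Set.mem_iUnion₂.1 (hs (Set.mem_univ x))
      exact ⟨_, Finset.mem_image_of_mem _ (hsfin.mem_toFinset.2 hy), hxy⟩)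
  have hsmall : ∀ v ∈ V, ∀ x ∈ v, ∀ y ∈ v, dist x y < η := by
    intro v hv x hx y hy
    obtain ⟨u, hu, hvu⟩ := hVU v hv
    obtain ⟨z, -, rfl⟩ := Finset.mem_image.1 hu
    have h1 := Metric.mem_ball.1 (hvu hx)
    have h2 := Metric.mem_ball.1 (hvu hy)
    have h3 := dist_triangle_right x y z
    linarith
  have hf : ∀ v : V, ∃ f : X → ℝ, Continuous f ∧ (∀ x, 0 ≤ f x) ∧ ∀ x, 0 < f x ↔ x ∈ v.1 :=
    fun v => exists_fun (hVo v.1 v.2)
  choose f hfc hf0 hfpos using hf
  let P : ℕ → X → Finset V → Prop := fun j x T => T.card = j + 1 ∧ (∀ i ∈ T, 0 < f i x) ∧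
    ∀ i ∈ T, ∀ k ∉ T, f k x < f i x
  have hPuniq : ∀ j x T T', P j x T → P j x T' → T = T' := by
    rintro j x T T' ⟨h1, h2, h3⟩ ⟨h1', h2', h3'⟩
    by_contra hne
    have hcard : T.card = T'.card := by rw [h1, h1']
    obtain ⟨i, hi, hi'⟩ : ∃ i ∈ T, i ∉ T' := by
      by_contra hcon
      push Not at hcon
      exact hne (Finset.eq_of_subset_of_card_le hcon hcard.ge)
    obtain ⟨k, hk, hk'⟩ : ∃ k ∈ T', k ∉ T := by
      by_contra hcon
      push Not at hcon
      exact hne (Finset.eq_of_subset_of_card_le hcon hcard.le).symm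
    exact lt_asymm (h3 i hi k hk') (h3' k hk i hi')
  let L : Fin (n + 1) → X → Option (Finset V) := fun j x =>
    if h : ∃ T, P j x T then some h.choose else none
  have hL : ∀ (j : Fin (n + 1)) x T, L j x = some T ↔ P j x T := by
    intro j x T
    by_cases h : ∃ T, P j x T
    · have e : L j x = some h.choose := dif_pos h
      rw [e]
      constructor
      · intro h'
        rw [← Option.some.inj h']
        exact h.choose_spec
      · intro h'
        rw [hPuniq _ _ _ _ h.choose_spec h']
    · have e : L j x = none := dif_neg h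
      rw [e]
      constructor
      · intro h'; cases h'
      · intro h'; exact absurd ⟨T, h'⟩ h
  refine ⟨Finset V, L, ?_, ?_, ?_⟩
  · intro c T
    have : {x | L c x = some T} = {x | P c x T} := by ext x; exact hL c x T
    rw [this]
    by_cases hT : T.card = (c : ℕ) + 1
    · have e : {x | P c x T} = (⋂ i ∈ T, {x | 0 < f i x}) ∩
          ⋂ i ∈ T, ⋂ k ∈ Tᶜ, {x | f k x < f i x} := by
        ext x
        simp only [Set.mem_inter_iff, Set.mem_iInter, Set.mem_setOf_eq, Finset.mem_compl]
        exact ⟨fun h => ⟨h.2.1, h.2.2⟩, fun h => ⟨hT, h.1, h.2⟩⟩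
      rw [e]
      refine (isOpen_biInter_finset fun i _ => isOpen_lt continuous_const (hfc i)).inter ?_
      exact isOpen_biInter_finset fun i _ => isOpen_biInter_finset fun k _ =>
        isOpen_lt (hfc k) (hfc i)
    · have e : {x | P c x T} = ∅ := by
        ext x
        simp only [Set.mem_setOf_eq, Set.mem_empty_iff_false, iff_false]
        exact fun h => hT h.1
      rw [e]
      exact isOpen_empty
  · intro c x y T hx hy
    obtain ⟨h1, h2, -⟩ := (hL c x T).1 hx
    obtain ⟨-, h2', -⟩ := (hL c y T).1 hy
    obtain ⟨i, hi⟩ : T.Nonempty := by rw [← Finset.card_pos, h1]; omega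
    exact hsmall i.1 i.2 x ((hfpos i x).1 (h2 i hi)) y ((hfpos i y).1 (h2' i hi))
  · intro x
    let T : Finset V := Finset.univ.filter fun i => x ∈ i.1
    have hT1 : 1 ≤ T.card := by
      obtain ⟨v, hv, hxv⟩ := hVc x
      rw [Nat.one_le_iff_ne_zero, ← Nat.pos_iff_ne_zero, Finset.card_pos]
      exact ⟨⟨v, hv⟩, Finset.mem_filter.2 ⟨Finset.mem_univ _, hxv⟩⟩
    have hT2 : T.card ≤ n + 1 := by
      have h := hVn x
      rwa [Nat.card_eq_fintype_card, Fintype.card_subtype] at h
    refine ⟨⟨T.card - 1, by omega⟩, ?_⟩
    have hP : P (T.card - 1) x T := by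
      refine ⟨by omega, fun i hi => (hfpos i x).2 (Finset.mem_filter.1 hi).2, fun i hi k hk => ?_⟩
      have h1 := (hfpos i x).2 (Finset.mem_filter.1 hi).2
      have h2 : ¬ 0 < f k x := by
        intro h
        exact hk (Finset.mem_filter.2 ⟨Finset.mem_univ _, (hfpos k x).1 h⟩)
      linarith
    rw [(hL ⟨T.card - 1, by omega⟩ x T).2 hP]
    exact Option.some_ne_none _

/-- a colour has an open support -/
theorem IsColor.isOpen_support {X ι : Type} [TopologicalSpace X] {L : X → Option ι}
    (hL : IsColor L) : IsOpen {x | L x ≠ none} := by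
  have : {x | L x ≠ none} = ⋃ k, {x | L x = some k} := by
    ext x
    simp only [Set.mem_setOf_eq, Set.mem_iUnion]
    exact Option.ne_none_iff_exists'
  rw [this]
  exact isOpen_iUnion hL

/-- one more colour -/
theorem exists_colors_step {X : Type} [MetricSpace X] [CompactSpace X] {n N : ℕ} (hnN : n < N)
    {η : ℝ} {ι : Type} {L : Fin N → X → Option ι} (h1 : ∀ c, IsColor (L c))
    (h2 : ∀ c, Small η (L c)) (h3 : ∀ x, Nat.card {c // L c x = none} ≤ n) :
    ∃ (ι : Type) (L : Fin (N + 1) → X → Option ι), (∀ c, IsColor (L c)) ∧ (∀ c, Small η (L c)) ∧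
      ∀ x, Nat.card {c // L c x = none} ≤ n := by
  classical
  have hg : ∀ c : Fin N, ∃ g : X → ℝ, Continuous g ∧ (∀ x, 0 ≤ g x) ∧
      ∀ x, 0 < g x ↔ x ∈ {x | L c x ≠ none} := fun c => exists_fun (h1 c).isOpen_support
  choose g hgc hg0 hgpos using hg
  -- the number of the colours which miss a point
  have h3' : ∀ x, N - n ≤ (Finset.univ.filter fun c => 0 < g c x).card := by
    intro x
    have h4 := h3 x
    rw [Nat.card_eq_fintype_card, Fintype.card_subtype] at h4
    have h5 : (Finset.univ.filter fun c => 0 < g c x) =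
        (Finset.univ.filter fun c => L c x = none)ᶜ := by
      ext c
      rw [Finset.mem_compl, Finset.mem_filter, Finset.mem_filter]
      have := hgpos c x
      simp only [Finset.mem_univ, true_and, this, Set.mem_setOf_eq, ne_eq]
    rw [h5, Finset.card_compl, Fintype.card_fin]
    omega
  -- a uniform threshold
  obtain ⟨τ, hτ, hτx⟩ : ∃ τ : ℝ, 0 < τ ∧
      ∀ x, N - n ≤ (Finset.univ.filter fun c => τ < g c x).card := by
    let O : ℕ → Set X := fun k => {x | N - n ≤ (Finset.univ.filter fun c => (1 : ℝ) / (k + 1) < g c x).card}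
    have hOo : ∀ k, IsOpen (O k) := by
      intro k
      have e : O k = ⋃ S ∈ {S : Finset (Fin N) | N - n ≤ S.card},
          ⋂ c ∈ S, {x | (1 : ℝ) / (k + 1) < g c x} := by
        ext x
        simp only [O, Set.mem_setOf_eq, Set.mem_iUnion, Set.mem_iInter, exists_prop]
        constructor
        · intro h
          exact ⟨_, h, fun c hc => (Finset.mem_filter.1 hc).2⟩
        · rintro ⟨S, hS, h⟩
          exact hS.trans (Finset.card_le_card fun c hc =>
            Finset.mem_filter.2 ⟨Finset.mem_univ _, h c hc⟩)
      rw [e]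
      exact isOpen_biUnion fun S _ => isOpen_biInter_finset fun c _ =>
        isOpen_lt continuous_const (hgc c)
    have hmono : Monotone O := by
      intro k l hkl x hx
      refine le_trans hx (Finset.card_le_card fun c hc => ?_)
      refine Finset.mem_filter.2 ⟨Finset.mem_univ _, lt_of_le_of_lt ?_ (Finset.mem_filter.1 hc).2⟩
      have : (k : ℝ) ≤ l := by exact_mod_cast hkl
      exact one_div_le_one_div_of_le (by positivity) (by linarith)
    obtain ⟨k, hk⟩ := isCompact_univ.elim_directed_cover O hOo (by
      intro x _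
      have hev : ∀ c : Fin N, ∃ k : ℕ, 0 < g c x → (1 : ℝ) / (k + 1) < g c x := by
        intro c
        by_cases h : 0 < g c x
        · obtain ⟨k, hk⟩ := exists_nat_one_div_lt h
          exact ⟨k, fun _ => hk⟩
        · exact ⟨0, fun h' => absurd h' h⟩
      choose k hk using hev
      refine Set.mem_iUnion.2 ⟨Finset.univ.sup k, (h3' x).trans (Finset.card_le_card fun c hc => ?_)⟩
      refine Finset.mem_filter.2 ⟨Finset.mem_univ _,
        lt_of_le_of_lt ?_ (hk c (Finset.mem_filter.1 hc).2)⟩
      have : (k c : ℝ) ≤ (Finset.univ.sup k : ℕ) := by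
        exact_mod_cast Finset.le_sup (f := k) (Finset.mem_univ c)
      exact one_div_le_one_div_of_le (by positivity) (by linarith))
      (directed_of_isDirected_le hmono)
    exact ⟨1 / (k + 1), by positivity, fun x => hk (Set.mem_univ x)⟩
  -- the new colour
  let lab : X → Fin N → Option ι := fun x c => if τ < g c x then L c x else none
  let L' : X → Option (Fin N → Option ι) := fun x =>
    if (Finset.univ.filter fun c => τ < g c x).card = N - n ∧ ∀ c, g c x ≠ τ
      then some (lab x) else none
  have hlab : ∀ x c, lab x c ≠ none ↔ τ < g c x := by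
    intro x c
    by_cases h : τ < g c x
    · simp only [lab, if_pos h, h, iff_true]
      exact (hgpos c x).1 (hτ.trans h)
    · simp [lab, if_neg h, h]
  have hL'iff : ∀ x ψ, L' x = some ψ ↔
      (Finset.univ.filter fun c => ψ c ≠ none).card = N - n ∧
      ∀ c, (∀ k, ψ c = some k → τ < g c x ∧ L c x = some k) ∧ (ψ c = none → g c x < τ) := by
    intro x ψ
    constructor
    · intro h
      by_cases h0 : (Finset.univ.filter fun c => τ < g c x).card = N - n ∧ ∀ c, g c x ≠ τ
      · have e : L' x = some (lab x) := if_pos h0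
        rw [e] at h
        obtain rfl := Option.some.inj h
        refine ⟨?_, fun c => ⟨fun k hk => ?_, fun hk => ?_⟩⟩
        · rw [← h0.1]
          congr 1
          ext c
          rw [Finset.mem_filter, Finset.mem_filter, hlab]
        · have h5 : τ < g c x := (hlab x c).1 (by rw [hk]; exact Option.some_ne_none _)
          refine ⟨h5, ?_⟩
          simpa [lab, h5] using hk
        · have h5 : ¬ τ < g c x := fun h6 => (hlab x c).2 h6 hk
          exact lt_of_le_of_ne (not_lt.1 h5) (h0.2 c)
      · have e : L' x = none := if_neg h0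
        rw [e] at h
        cases h
    · rintro ⟨h4, h5⟩
      have h6 : ∀ c, τ < g c x ↔ ψ c ≠ none := by
        intro c
        constructor
        · intro h7 h8
          exact lt_asymm h7 ((h5 c).2 h8)
        · intro h7
          obtain ⟨k, hk⟩ := Option.ne_none_iff_exists'.1 h7
          exact ((h5 c).1 k hk).1
      have h0 : (Finset.univ.filter fun c => τ < g c x).card = N - n ∧ ∀ c, g c x ≠ τ := by
        refine ⟨?_, fun c h7 => ?_⟩
        · rw [← h4]
          congr 1
          ext c
          rw [Finset.mem_filter, Finset.mem_filter, h6]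
        · by_cases h8 : ψ c = none
          · exact absurd h7 ((h5 c).2 h8).ne
          · exact absurd h7 ((h6 c).2 h8).ne'
      have e : L' x = some (lab x) := if_pos h0
      rw [e]
      congr 1
      funext c
      by_cases h8 : ψ c = none
      · have h9 : ¬ τ < g c x := not_lt.2 ((h5 c).2 h8).le
        simp [lab, h9, h8]
      · obtain ⟨k, hk⟩ := Option.ne_none_iff_exists'.1 h8
        obtain ⟨h9, h10⟩ := (h5 c).1 k hk
        simp [lab, h9, h10, hk]
  have hL'color : IsColor L' := by
    intro ψ
    have e : {x | L' x = some ψ} = {x | (Finset.univ.filter fun c => ψ c ≠ none).card = N - n} ∩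
        ⋂ c, ((⋂ k, {x | ψ c = some k → τ < g c x ∧ L c x = some k}) ∩
          {x | ψ c = none → g c x < τ}) := by
      ext x
      simp only [Set.mem_setOf_eq, Set.mem_inter_iff, Set.mem_iInter]
      exact hL'iff x ψ
    rw [e]
    refine IsOpen.inter isOpen_const (isOpen_iInter_of_finite fun c => ?_)
    rcases h : ψ c with _ | k
    · have e1 : (⋂ k, {x | (none : Option ι) = some k → τ < g c x ∧ L c x = some k}) ∩
          {x | (none : Option ι) = none → g c x < τ} = {x | g c x < τ} := by
        ext x; simp
      rw [e1]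
      exact isOpen_lt (hgc c) continuous_const
    · have e1 : (⋂ k', {x | some k = some k' → τ < g c x ∧ L c x = some k'}) ∩
          {x | some k = none → g c x < τ} = {x | τ < g c x} ∩ {x | L c x = some k} := by
        ext x; simp
      rw [e1]
      exact (isOpen_lt continuous_const (hgc c)).inter (h1 c k)
  have hL'small : Small η L' := by
    intro x y ψ hx hy
    obtain ⟨h4, h5⟩ := (hL'iff x ψ).1 hx
    obtain ⟨-, h5'⟩ := (hL'iff y ψ).1 hy
    have hpos : 0 < N - n := by omega
    rw [← h4, Finset.card_pos] at hpos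
    obtain ⟨c, hc⟩ := hpos
    obtain ⟨k, hk⟩ := Option.ne_none_iff_exists'.1 (Finset.mem_filter.1 hc).2
    exact h2 c x y k ((h5 c).1 k hk).2 ((h5' c).1 k hk).2
  refine ⟨ι ⊕ (Fin N → Option ι), Fin.snoc (α := fun _ => X → Option (ι ⊕ (Fin N → Option ι)))
    (fun c x => (L c x).map Sum.inl) (fun x => (L' x).map Sum.inr), ?_, ?_, ?_⟩
  · intro c
    refine Fin.lastCases ?_ (fun c => ?_) c
    · rw [Fin.snoc_last]
      rintro (k | k)
      · have : {x | (L' x).map Sum.inr = some (Sum.inl k : ι ⊕ (Fin N → Option ι))} = ∅ := by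
          ext x; simp
        rw [this]; exact isOpen_empty
      · have : {x | (L' x).map Sum.inr = some (Sum.inr k : ι ⊕ (Fin N → Option ι))} =
            {x | L' x = some k} := by
          ext x; simp
        rw [this]; exact hL'color k
    · rw [Fin.snoc_castSucc]
      rintro (k | k)
      · have : {x | (L c x).map Sum.inl = some (Sum.inl k : ι ⊕ (Fin N → Option ι))} =
            {x | L c x = some k} := by
          ext x; simp
        rw [this]; exact h1 c k
      · have : {x | (L c x).map Sum.inl = some (Sum.inr k : ι ⊕ (Fin N → Option ι))} = ∅ := by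
          ext x; simp
        rw [this]; exact isOpen_empty
  · intro c
    refine Fin.lastCases ?_ (fun c => ?_) c
    · rw [Fin.snoc_last]
      intro x y k hx hy
      obtain ⟨a, ha, rfl⟩ := Option.map_eq_some_iff.1 hx
      obtain ⟨b, hb, hab⟩ := Option.map_eq_some_iff.1 hy
      obtain rfl := Sum.inr.inj hab
      exact hL'small x y _ ha hb
    · rw [Fin.snoc_castSucc]
      intro x y k hx hy
      obtain ⟨a, ha, rfl⟩ := Option.map_eq_some_iff.1 hx
      obtain ⟨b, hb, hab⟩ := Option.map_eq_some_iff.1 hy
      obtain rfl := Sum.inl.inj hab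
      exact h2 c x y _ ha hb
  · intro x
    rw [Nat.card_eq_fintype_card, Fintype.card_subtype, Finset.card_filter, Fin.sum_univ_castSucc]
    simp only [Fin.snoc_castSucc, Fin.snoc_last, Option.map_eq_none_iff]
    rw [← Finset.card_filter]
    have h4 := h3 x
    rw [Nat.card_eq_fintype_card, Fintype.card_subtype] at h4
    by_cases h0 : L' x = none
    · rw [if_pos h0]
      by_contra hcon
      have h5 : (Finset.univ.filter fun c => L c x = none).card = n := by omega
      apply absurd h0
      have h6 : (Finset.univ.filter fun c => 0 < g c x).card = N - n := by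
        have h7 : (Finset.univ.filter fun c => 0 < g c x) =
            (Finset.univ.filter fun c => L c x = none)ᶜ := by
          ext c
          rw [Finset.mem_compl, Finset.mem_filter, Finset.mem_filter]
          have := hgpos c x
          simp only [Finset.mem_univ, true_and, this, Set.mem_setOf_eq, ne_eq]
        rw [h7, Finset.card_compl, Fintype.card_fin, h5]
      have h7 : (Finset.univ.filter fun c => τ < g c x) = Finset.univ.filter fun c => 0 < g c x := by
        refine Finset.eq_of_subset_of_card_le (fun c hc => ?_) (by rw [h6]; exact hτx x)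
        exact Finset.mem_filter.2 ⟨Finset.mem_univ _, hτ.trans (Finset.mem_filter.1 hc).2⟩
      have h8 : (Finset.univ.filter fun c => τ < g c x).card = N - n ∧ ∀ c, g c x ≠ τ := by
        refine ⟨by rw [h7, h6], fun c hc => ?_⟩
        have h9 : c ∈ Finset.univ.filter fun c => 0 < g c x :=
          Finset.mem_filter.2 ⟨Finset.mem_univ _, by rw [hc]; exact hτ⟩
        rw [← h7] at h9
        exact absurd hc (Finset.mem_filter.1 h9).2.ne'
      have e : L' x = some (lab x) := if_pos h8
      rw [e]
      exact Option.some_ne_none _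
    · rw [if_neg h0]
      exact h4

/-- **Kolmogorov's device**: in a space of dimension `n` there are, for every `M`, `M` colours with
small members such that every point is missed by at most `n` of them. -/
theorem exists_colors {X : Type} [MetricSpace X] [CompactSpace X] {n : ℕ}
    (hX : CovDimLE X n) {η : ℝ} (hη : 0 < η) (M : ℕ) :
    ∃ (ι : Type) (L : Fin M → X → Option ι), (∀ c, IsColor (L c)) ∧ (∀ c, Small η (L c)) ∧
      ∀ x, Nat.card {c // L c x = none} ≤ n := by
  classical
  rcases Nat.lt_or_ge n M with hM | hM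
  swap
  · refine ⟨Unit, fun _ _ => none, fun c k => ?_, fun c x y k h => by simp at h, fun x => ?_⟩
    · have : {x : X | (none : Option Unit) = some k} = ∅ := by ext; simp
      rw [this]; exact isOpen_empty
    · refine (Nat.card_le_card_of_injective (fun c => c.1) Subtype.val_injective).trans ?_
      rwa [Nat.card_fin]
  induction M, hM using Nat.le_induction with
  | base =>
    obtain ⟨ι, L, h1, h2, h3⟩ := exists_colors_base hX hη
    refine ⟨ι, L, h1, h2, fun x => ?_⟩
    obtain ⟨c, hc⟩ := h3 x
    rw [Nat.card_eq_fintype_card, Fintype.card_subtype]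
    have : (Finset.univ.filter fun c => L c x = none) ⊆ Finset.univ.erase c := by
      intro c' hc'
      rw [Finset.mem_erase]
      refine ⟨fun h => hc ?_, Finset.mem_univ _⟩
      rw [← h]
      exact (Finset.mem_filter.1 hc').2
    have h4 := Finset.card_le_card this
    rw [Finset.card_erase_of_mem (Finset.mem_univ _), Finset.card_univ, Fintype.card_fin] at h4
    exact h4
  | succ N hN ih =>
    obtain ⟨ι, L, h1, h2, h3⟩ := ih
    exact exists_colors_step hN h1 h2 h3

end Pool.Agent.Q68.SM
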