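import Pool.Agent.Q68.SM.Nerve

/-!
# The dimension of the spaces of approximately equivariant maps
-/

set_option autoImplicit false

namespace Pool.Agent.Q68.SM

open Filter Topology

/-! ## Separated sets -/

open Classical in
/-- the points at which the maps `σ s`, `s ∈ F`, do not have distinct values -/
noncomputable def nonFree {G : Type} {d : ℕ} (σ : G → Equiv.Perm (Fin d)) (F : Finset G) :
    Finset (Fin d) :=
  Finset.univ.filter fun v => ∃ s ∈ F, ∃ t ∈ F, s ≠ t ∧ σ s v = σ t v

theorem exists_separated {G : Type} {d : ℕ} (σ : G → Equiv.Perm (Fin d)) {F : Finset G}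
    (hF : F.Nonempty) : ∃ W : Finset (Fin d),
      W.card * F.card ≤ d + (nonFree σ F).card * F.card ∧
      ∀ v ∉ W, ∃ s ∈ F, ∃ t ∈ F, ∃ w ∈ W, σ s v = σ t w := by
  classical
  let tr : Fin d → Finset (Fin d) := fun v => F.image fun s => σ s v
  let fam : Finset (Finset (Fin d)) := (nonFree σ F)ᶜ.powerset.filter fun S =>
    ∀ u ∈ S, ∀ v ∈ S, u ≠ v → Disjoint (tr u) (tr v)
  obtain ⟨W0, hW0, hmax⟩ := fam.exists_max_image Finset.card
    ⟨∅, Finset.mem_filter.2 ⟨Finset.empty_mem_powerset _, by simp⟩⟩
  obtain ⟨hW0s, hW0d⟩ := Finset.mem_filter.1 hW0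
  rw [Finset.mem_powerset] at hW0s
  refine ⟨W0 ∪ nonFree σ F, ?_, fun v hv => ?_⟩
  · have h1 : W0.card * F.card ≤ d := by
      have h2 : ∀ w ∈ W0, (tr w).card = F.card := by
        intro w hw
        refine Finset.card_image_of_injOn fun s hs t ht hst => ?_
        by_contra hne
        exact Finset.mem_compl.1 (hW0s hw)
          (Finset.mem_filter.2 ⟨Finset.mem_univ _, s, hs, t, ht, hne, hst⟩)
      have h3 : (W0.biUnion tr).card = ∑ w ∈ W0, (tr w).card :=
        Finset.card_biUnion fun u hu v hv huv => hW0d u hu v hv huv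
      rw [Finset.sum_congr rfl h2, Finset.sum_const, smul_eq_mul] at h3
      rw [← h3]
      exact (Finset.card_le_univ _).trans (by rw [Fintype.card_fin])
    calc (W0 ∪ nonFree σ F).card * F.card ≤ (W0.card + (nonFree σ F).card) * F.card :=
          Nat.mul_le_mul_right _ (Finset.card_union_le _ _)
      _ = W0.card * F.card + (nonFree σ F).card * F.card := Nat.add_mul _ _ _
      _ ≤ _ := Nat.add_le_add_right h1 _
  · rw [Finset.mem_union, not_or] at hv
    by_contra hcon
    push Not at hcon
    have hmem : insert v W0 ∈ fam := by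
      refine Finset.mem_filter.2 ⟨?_, ?_⟩
      · rw [Finset.mem_powerset]
        exact Finset.insert_subset (Finset.mem_compl.2 hv.2) hW0s
      · have hdis : ∀ w ∈ W0, Disjoint (tr v) (tr w) := by
          intro w hw
          rw [Finset.disjoint_left]
          intro x hx hx'
          obtain ⟨s, hs, rfl⟩ := Finset.mem_image.1 hx
          obtain ⟨t, ht, hst⟩ := Finset.mem_image.1 hx'
          exact hcon s hs t ht w (Finset.mem_union_left _ hw) hst.symm
        intro u hu w hw huw
        rcases Finset.mem_insert.1 hu with hu' | hu' <;> rcases Finset.mem_insert.1 hw with hw' | hw'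
        · exact absurd (hu'.trans hw'.symm) huw
        · rw [hu']; exact hdis w hw'
        · rw [hw']; exact (hdis u hu').symm
        · exact hW0d u hu' w hw' huw
    have := hmax _ hmem
    rw [Finset.card_insert_of_notMem hv.1] at this
    omega

/-! ## Products of colours -/

open Classical in
/-- the product of colours -/
noncomputable def prodColor {V κ Z : Type} (A : V → Z → Option κ) : Z → Option (V → κ) := fun z =>
  if h : ∀ v, ∃ k, A v z = some k then some (fun v => (h v).choose) else none

theorem prodColor_eq_some {V κ Z : Type} (A : V → Z → Option κ) (z : Z) (ψ : V → κ) :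
    prodColor A z = some ψ ↔ ∀ v, A v z = some (ψ v) := by
  by_cases h : ∀ v, ∃ k, A v z = some k
  · have e : prodColor A z = some (fun v => (h v).choose) := dif_pos h
    rw [e]
    constructor
    · intro h' v
      rw [← Option.some.inj h']
      exact (h v).choose_spec
    · intro h'
      congr 1
      funext v
      have h1 := (h v).choose_spec
      exact Option.some.inj (h1.symm.trans (h' v))
  · have e : prodColor A z = none := dif_neg h
    rw [e]
    constructor
    · intro h'; cases h'
    · intro h'; exact absurd (fun v => ⟨_, h' v⟩) h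

theorem prodColor_eq_none {V κ Z : Type} (A : V → Z → Option κ) (z : Z)
    (h : prodColor A z = none) : ∃ v, A v z = none := by
  by_contra hcon
  push Not at hcon
  have h1 : ∀ v, ∃ k, A v z = some k := fun v => Option.ne_none_iff_exists'.1 (hcon v)
  have e : prodColor A z = some (fun v => (h1 v).choose) := dif_pos h1
  rw [e] at h
  cases h

theorem isColor_prod {V κ Z : Type} [Finite V] [TopologicalSpace Z] {A : V → Z → Option κ}
    (hA : ∀ v, IsColor (A v)) : IsColor (prodColor A) := by
  intro ψ
  have e : {z | prodColor A z = some ψ} = ⋂ v, {z | A v z = some (ψ v)} := by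
    ext z
    simp only [Set.mem_setOf_eq, Set.mem_iInter]
    exact prodColor_eq_some A z ψ
  rw [e]
  exact isOpen_iInter_of_finite fun v => hA v (ψ v)

/-! ## The estimate -/

section
variable {G : Type} [Group G] {X : Type} [MetricSpace X] [CompactSpace X] [MulAction G X]
  [ContinuousConstSMul G X]

theorem isCompact_mapSet (F : Finset G) (δ : ℝ) {d : ℕ} (σ : G → Equiv.Perm (Fin d)) :
    IsCompact (MapSet X F δ σ) := by
  refine IsClosed.isCompact ?_
  have e : MapSet X F δ σ = ⋂ s ∈ F, {φ : Fin d → X |
      rho2 (fun l => φ (σ s l)) (fun l => s • φ l) ≤ δ} := by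
    ext φ
    simp [MapSet]
  rw [e]
  refine isClosed_biInter fun s _ => isClosed_le ?_ continuous_const
  unfold rho2
  refine Real.continuous_sqrt.comp (Continuous.div_const ?_ _)
  refine continuous_finset_sum _ fun l _ => ((Continuous.dist (continuous_apply _) ?_).pow 2)
  exact (continuous_apply l).const_smul s

omit [CompactSpace X] [ContinuousConstSMul G X] in
theorem card_error_le {F : Finset G} {δ : ℝ} {d : ℕ} {σ : G → Equiv.Perm (Fin d)}
    {φ : Fin d → X} (hφ : φ ∈ MapSet X F δ σ) {s : G} (hs : s ∈ F) {r : ℝ} (hr : 0 < r) :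
    ((Finset.univ.filter fun u => r ≤ dist (φ (σ s u)) (s • φ u)).card : ℝ) ≤
      δ ^ 2 / r ^ 2 * d := by
  have h1 := hφ s hs
  unfold rho2 at h1
  rcases Nat.eq_zero_or_pos d with rfl | hd
  · simp
  have hd' : (0 : ℝ) < d := by exact_mod_cast hd
  have hδ : 0 ≤ δ := (Real.sqrt_nonneg _).trans h1
  have h2 : (∑ l, dist (φ (σ s l)) (s • φ l) ^ 2) / d ≤ δ ^ 2 := by
    rwa [Real.sqrt_le_left hδ] at h1
  rw [div_le_iff₀ hd'] at h2
  have h3 : ((Finset.univ.filter fun u => r ≤ dist (φ (σ s u)) (s • φ u)).card : ℝ) * r ^ 2 ≤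
      ∑ l, dist (φ (σ s l)) (s • φ l) ^ 2 := by
    rw [← nsmul_eq_mul, ← Finset.sum_const]
    refine (Finset.sum_le_sum fun u hu => ?_).trans
      (Finset.sum_le_sum_of_subset_of_nonneg (Finset.filter_subset _ _) fun _ _ _ => by positivity)
    exact pow_le_pow_left₀ hr.le (Finset.mem_filter.1 hu).2 2
  rw [div_mul_eq_mul_div, le_div_iff₀ (by positivity)]
  linarith

theorem exists_unif (F : Finset G) {ε : ℝ} (hε : 0 < ε) : ∃ η : ℝ, 0 < η ∧
    ∀ s ∈ F, ∀ x y : X, dist x y < η → dist (s • x) (s • y) < ε := by
  have hc : Continuous fun (x : X) (s : F) => (s : G) • x :=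
    continuous_pi fun s => continuous_const_smul (s : G)
  have hu := CompactSpace.uniformContinuous_of_continuous hc
  obtain ⟨η, hη, h⟩ := Metric.uniformContinuous_iff.1 hu ε hε
  refine ⟨η, hη, fun s hs x y hxy => ?_⟩
  exact (dist_pi_lt_iff hε).1 (h hxy) ⟨s, hs⟩

theorem widim_mapSet_le {n : ℕ} (hX : CovDimLE X n) {ε : ℝ} (hε : 0 < ε) {F : Finset G}
    (hF : F.Nonempty) : ∃ η : ℝ, 0 < η ∧ ∀ (δ : ℝ) (d : ℕ) (σ : G → Equiv.Perm (Fin d))
      (W : Finset (Fin d)), (∀ v ∉ W, ∃ s ∈ F, ∃ t ∈ F, ∃ w ∈ W, σ s v = σ t w) →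
      widim ε (MapSet X F δ σ) ≤
        ((n * W.card + (n + 1) * ⌊2 * (F.card : ℝ) ^ 2 * (δ ^ 2 / η ^ 2 * d)⌋₊ + 1 : ℕ) : EReal) := by
  classical
  obtain ⟨η1, hη1, hu1⟩ := exists_unif (X := X) (F.image fun s => s⁻¹) (ε := ε / 8) (by positivity)
  obtain ⟨η2, hη2, hu2⟩ := exists_unif (X := X)
    (Finset.image₂ (fun s t => s⁻¹ * t) F F) (ε := ε / 8) (by positivity)
  refine ⟨η1 / 2, by positivity, fun δ d σ W hW => ?_⟩
  set B : ℕ := ⌊2 * (F.card : ℝ) ^ 2 * (δ ^ 2 / (η1 / 2) ^ 2 * d)⌋₊ with hB
  set M : ℕ := n * W.card + (n + 1) * B + 1 with hM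
  obtain ⟨ι, L, hL1, hL2, hL3⟩ := exists_colors hX (η := min η2 (ε / 8))
    (lt_min hη2 (by positivity)) M
  have hcpt : CompactSpace (MapSet X F δ σ) :=
    isCompact_iff_compactSpace.1 (isCompact_mapSet F δ σ)
  choose! s hs t ht w hw hst using hW
  let b : Fin d → MapSet X F δ σ → ℝ := fun v φ => dist (φ.1 v) (((s v)⁻¹ * t v) • φ.1 (w v))
  have hbc : ∀ v, Continuous (b v) := fun v =>
    ((continuous_apply v).comp continuous_subtype_val).dist
      (((continuous_apply (w v)).comp continuous_subtype_val).const_smul _)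
  let θ : Fin M → ℝ := fun c => ε / 8 * (1 + ((c : ℕ) + 1) / (M + 1))
  have hθ1 : ∀ c, ε / 8 < θ c := by
    intro c
    have h1 : (0 : ℝ) < ((c : ℕ) + 1) / (M + 1) := by positivity
    simp only [θ]
    nlinarith
  have hθ2 : ∀ c, θ c ≤ ε / 4 := by
    intro c
    have h1 : (((c : ℕ) : ℝ) + 1) / (M + 1) ≤ 1 := by
      rw [div_le_one (by positivity)]
      have : ((c : ℕ) : ℝ) < M := by exact_mod_cast c.2
      linarith
    simp only [θ]
    nlinarith
  have hθinj : ∀ c c', θ c = θ c' → c = c' := by
    intro c c' h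
    simp only [θ] at h
    have h1 : (((c : ℕ) : ℝ) + 1) / (M + 1) = (((c' : ℕ) : ℝ) + 1) / (M + 1) := by
      have h2 := mul_left_cancel₀ (by positivity : (ε / 8 : ℝ) ≠ 0) h
      linarith
    have hM1 : ((M : ℝ) + 1) ≠ 0 := by positivity
    have h3 : ((c : ℕ) : ℝ) + 1 = ((c' : ℕ) : ℝ) + 1 := by
      field_simp at h1
      linarith
    have h4 : ((c : ℕ) : ℝ) = ((c' : ℕ) : ℝ) := by linarith
    exact Fin.ext (by exact_mod_cast h4)
  let A : Fin M → Fin d → MapSet X F δ σ → Option (Option ι) := fun c v φ =>
    if v ∈ W then (L c (φ.1 v)).map some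
    else if b v φ < θ c then some none
    else if θ c < b v φ then (L c (φ.1 v)).map some else none
  have hev : ∀ v : Fin d, Continuous fun φ : MapSet X F δ σ => φ.1 v := fun v =>
    (continuous_apply v).comp continuous_subtype_val
  have hLcont : ∀ c v k, IsOpen {φ : MapSet X F δ σ | L c (φ.1 v) = some k} := fun c v k =>
    IsOpen.preimage (hev v) (hL1 c k)
  have hAcolor : ∀ c v, IsColor (A c v) := by
    intro c v
    rintro (_ | k)
    · by_cases hv : v ∈ W
      · have e : {φ | A c v φ = some none} = ∅ := by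
          ext φ; simp [A, hv]
        rw [e]; exact isOpen_empty
      · have e : {φ | A c v φ = some none} = {φ | b v φ < θ c} := by
          ext φ
          simp only [A, if_neg hv, Set.mem_setOf_eq]
          by_cases h1 : b v φ < θ c
          · simp [h1]
          · by_cases h2 : θ c < b v φ <;> simp [h1, h2]
        rw [e]
        exact isOpen_lt (hbc v) continuous_const
    · by_cases hv : v ∈ W
      · have e : {φ | A c v φ = some (some k)} = {φ | L c (φ.1 v) = some k} := by
          ext φ; simp [A, hv]
        rw [e]; exact hLcont c v k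
      · have e : {φ | A c v φ = some (some k)} = {φ | θ c < b v φ} ∩ {φ | L c (φ.1 v) = some k} := by
          ext φ
          simp only [A, if_neg hv, Set.mem_setOf_eq, Set.mem_inter_iff]
          by_cases h1 : b v φ < θ c
          · simp [h1, not_lt.2 h1.le]
          · by_cases h2 : θ c < b v φ <;> simp [h1, h2]
        rw [e]
        exact (isOpen_lt continuous_const (hbc v)).inter (hLcont c v k)
  refine (widim_le (M := M) (L := fun c => prodColor (A c)) (fun c => isColor_prod (hAcolor c))
    ?_ ?_).trans (le_of_eq ?_)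
  · -- the members are small
    intro c φ φ' ψ h1 h2
    rw [prodColor_eq_some] at h1 h2
    have hWd : ∀ v ∈ W, dist (φ.1 v) (φ'.1 v) < min η2 (ε / 8) := by
      intro v hv
      have h3 := h1 v
      have h4 := h2 v
      simp only [A, if_pos hv] at h3 h4
      obtain ⟨k, hk, hk'⟩ := Option.map_eq_some_iff.1 h3
      obtain ⟨k2, hk2, hk2'⟩ := Option.map_eq_some_iff.1 h4
      rw [← hk'] at hk2'
      obtain rfl := Option.some.inj hk2'
      exact hL2 c _ _ _ hk hk2
    show dist φ.1 φ'.1 < ε
    rw [dist_pi_lt_iff hε]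
    intro v
    by_cases hv : v ∈ W
    · have := (hWd v hv).trans_le (min_le_right _ _)
      linarith
    · have h3 := h1 v
      have h4 := h2 v
      simp only [A, if_neg hv] at h3 h4
      by_cases h5 : b v φ < θ c
      · rw [if_pos h5] at h3
        have h6 : b v φ' < θ c := by
          by_contra h6
          rw [if_neg h6, ← h3] at h4
          by_cases h7 : θ c < b v φ'
          · rw [if_pos h7] at h4
            obtain ⟨k, -, hk⟩ := Option.map_eq_some_iff.1 h4
            cases hk
          · rw [if_neg h7] at h4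
            cases h4
        have h7 : dist (((s v)⁻¹ * t v) • φ.1 (w v)) (((s v)⁻¹ * t v) • φ'.1 (w v)) < ε / 8 :=
          hu2 _ (Finset.mem_image₂.2 ⟨_, hs v hv, _, ht v hv, rfl⟩) _ _
            ((hWd (w v) (hw v hv)).trans_le (min_le_left _ _))
        have h8 : b v φ < ε / 4 := h5.trans_le (hθ2 c)
        have h9 : b v φ' < ε / 4 := h6.trans_le (hθ2 c)
        have h10 := dist_triangle4 (φ.1 v) (((s v)⁻¹ * t v) • φ.1 (w v))
          (((s v)⁻¹ * t v) • φ'.1 (w v)) (φ'.1 v)
        have h11 : dist (((s v)⁻¹ * t v) • φ'.1 (w v)) (φ'.1 v) = b v φ' := dist_comm _ _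
        have h12 : dist (φ.1 v) (((s v)⁻¹ * t v) • φ.1 (w v)) = b v φ := rfl
        linarith
      · rw [if_neg h5] at h3
        have h5' : θ c < b v φ := by
          by_contra h6
          rw [if_neg h6] at h3
          cases h3
        rw [if_pos h5'] at h3
        obtain ⟨k, hk, hk'⟩ := Option.map_eq_some_iff.1 h3
        rw [← hk'] at h4
        have h6 : ¬ b v φ' < θ c := by
          intro h6
          rw [if_pos h6] at h4
          cases h4
        rw [if_neg h6] at h4
        have h7 : θ c < b v φ' := by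
          by_contra h7
          rw [if_neg h7] at h4
          cases h4
        rw [if_pos h7] at h4
        obtain ⟨k2, hk2, hk2'⟩ := Option.map_eq_some_iff.1 h4
        obtain rfl := Option.some.inj hk2'
        have := (hL2 c _ _ _ hk hk2).trans_le (min_le_right _ _)
        linarith
  · -- every point has a colour
    intro φ
    by_contra hcon
    push Not at hcon
    have hv : ∀ c, ∃ v, A c v φ = none := fun c => prodColor_eq_none _ _ (hcon c)
    -- the number of the bad places
    have hbad : (Finset.univ.filter fun v => v ∉ W ∧ ε / 8 < b v φ).card ≤ B := by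
      have hE : ∀ u ∈ F, ((Finset.univ.filter fun x => η1 / 2 ≤ dist (φ.1 (σ u x)) (u • φ.1 x)).card
          : ℝ) ≤ δ ^ 2 / (η1 / 2) ^ 2 * d := fun u hu => card_error_le φ.2 hu (by positivity)
      let E : G → Finset (Fin d) := fun u =>
        Finset.univ.filter fun x => η1 / 2 ≤ dist (φ.1 (σ u x)) (u • φ.1 x)
      have hsub : (Finset.univ.filter fun v => v ∉ W ∧ ε / 8 < b v φ) ⊆
          F.biUnion E ∪ (F ×ˢ F).biUnion fun p => (E p.2).image fun x => (σ p.1).symm (σ p.2 x) := by
        intro v hv
        obtain ⟨-, hvW, hvb⟩ := Finset.mem_filter.1 hv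
        rw [Finset.mem_union]
        by_contra hcon2
        rw [not_or] at hcon2
        have h1 : dist (φ.1 (σ (s v) v)) (s v • φ.1 v) < η1 / 2 := by
          by_contra h
          exact hcon2.1 (Finset.mem_biUnion.2 ⟨s v, hs v hvW,
            Finset.mem_filter.2 ⟨Finset.mem_univ _, not_lt.1 h⟩⟩)
        have h2 : dist (φ.1 (σ (t v) (w v))) (t v • φ.1 (w v)) < η1 / 2 := by
          by_contra h
          refine hcon2.2 (Finset.mem_biUnion.2 ⟨(s v, t v), Finset.mem_product.2
            ⟨hs v hvW, ht v hvW⟩, Finset.mem_image.2 ⟨w v,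
            Finset.mem_filter.2 ⟨Finset.mem_univ _, not_lt.1 h⟩, ?_⟩⟩)
          show (σ (s v)).symm (σ (t v) (w v)) = v
          rw [← hst v hvW, Equiv.symm_apply_apply]
        have h3 : dist (s v • φ.1 v) (t v • φ.1 (w v)) < η1 := by
          rw [← hst v hvW] at h2
          have := dist_triangle_left (s v • φ.1 v) (t v • φ.1 (w v)) (φ.1 (σ (s v) v))
          linarith
        have h4 := hu1 (s v)⁻¹ (Finset.mem_image_of_mem _ (hs v hvW)) _ _ h3
        rw [inv_smul_smul, ← mul_smul] at h4
        have h5 : b v φ < ε / 8 := h4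
        linarith
      have hcard : (((Finset.univ.filter fun v => v ∉ W ∧ ε / 8 < b v φ).card : ℕ) : ℝ) ≤
          2 * (F.card : ℝ) ^ 2 * (δ ^ 2 / (η1 / 2) ^ 2 * d) := by
        have h1 : ((Finset.univ.filter fun v => v ∉ W ∧ ε / 8 < b v φ).card) ≤
            ∑ u ∈ F, (E u).card + ∑ p ∈ F ×ˢ F, (E p.2).card := by
          refine (Finset.card_le_card hsub).trans ((Finset.card_union_le _ _).trans ?_)
          refine Nat.add_le_add Finset.card_biUnion_le (Finset.card_biUnion_le.trans ?_)
          exact Finset.sum_le_sum fun p _ => Finset.card_image_le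
        have h2 : (((Finset.univ.filter fun v => v ∉ W ∧ ε / 8 < b v φ).card : ℕ) : ℝ) ≤
            ∑ u ∈ F, ((E u).card : ℝ) + ∑ p ∈ F ×ˢ F, ((E p.2).card : ℝ) := by exact_mod_cast h1
        have h3 : ∑ u ∈ F, ((E u).card : ℝ) ≤ F.card * (δ ^ 2 / (η1 / 2) ^ 2 * d) := by
          rw [← nsmul_eq_mul, ← Finset.sum_const]
          exact Finset.sum_le_sum fun u hu => hE u hu
        have h4 : ∑ p ∈ F ×ˢ F, ((E p.2).card : ℝ) ≤
            (F.card : ℝ) ^ 2 * (δ ^ 2 / (η1 / 2) ^ 2 * d) := by
          have : ((F.card : ℝ)) ^ 2 = ((F ×ˢ F).card : ℝ) := by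
            rw [Finset.card_product]; push_cast; ring
          rw [this, ← nsmul_eq_mul, ← Finset.sum_const]
          exact Finset.sum_le_sum fun p hp => hE p.2 (Finset.mem_product.1 hp).2
        have h5 : (1 : ℝ) ≤ F.card := by exact_mod_cast hF.card_pos
        have h6 : (0 : ℝ) ≤ δ ^ 2 / (η1 / 2) ^ 2 * d := by positivity
        nlinarith [mul_nonneg (mul_nonneg (by linarith : (0:ℝ) ≤ F.card)
          (by linarith : (0 : ℝ) ≤ (F.card : ℝ) - 1)) h6]
      exact Nat.le_floor hcard
    have hcount : M ≤ ∑ v : Fin d, (Finset.univ.filter fun c => A c v φ = none).card := by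
      have h1 : (Finset.univ : Finset (Fin M)) ⊆ Finset.univ.biUnion fun v : Fin d =>
          Finset.univ.filter fun c => A c v φ = none := by
        intro c _
        obtain ⟨v, hv⟩ := hv c
        exact Finset.mem_biUnion.2 ⟨v, Finset.mem_univ _, Finset.mem_filter.2
          ⟨Finset.mem_univ _, hv⟩⟩
      have h2 := (Finset.card_le_card h1).trans Finset.card_biUnion_le
      rwa [Finset.card_univ, Fintype.card_fin] at h2
    have hLn : ∀ x : X, (Finset.univ.filter fun c => L c x = none).card ≤ n := by
      intro x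
      have h := hL3 x
      rwa [Nat.card_eq_fintype_card, Fintype.card_subtype] at h
    have hterm : ∀ v : Fin d, (Finset.univ.filter fun c => A c v φ = none).card ≤
        (if v ∈ W then n else 0) + (if v ∉ W ∧ ε / 8 < b v φ then n + 1 else 0) := by
      intro v
      by_cases hvW : v ∈ W
      · rw [if_pos hvW, if_neg (fun h => h.1 hvW), add_zero]
        refine (Finset.card_le_card fun c hc => ?_).trans (hLn (φ.1 v))
        have h := (Finset.mem_filter.1 hc).2
        simp only [A, if_pos hvW, Option.map_eq_none_iff] at h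
        exact Finset.mem_filter.2 ⟨Finset.mem_univ _, h⟩
      · rw [if_neg hvW, zero_add]
        by_cases hb8 : ε / 8 < b v φ
        · rw [if_pos ⟨hvW, hb8⟩]
          have h1 : (Finset.univ.filter fun c => A c v φ = none) ⊆
              (Finset.univ.filter fun c => L c (φ.1 v) = none) ∪
                Finset.univ.filter fun c => θ c = b v φ := by
            intro c hc
            have h := (Finset.mem_filter.1 hc).2
            simp only [A, if_neg hvW] at h
            rw [Finset.mem_union]
            by_cases h2 : b v φ < θ c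
            · rw [if_pos h2] at h; cases h
            · rw [if_neg h2] at h
              by_cases h3 : θ c < b v φ
              · rw [if_pos h3, Option.map_eq_none_iff] at h
                exact Or.inl (Finset.mem_filter.2 ⟨Finset.mem_univ _, h⟩)
              · exact Or.inr (Finset.mem_filter.2 ⟨Finset.mem_univ _,
                  le_antisymm (not_lt.1 h2) (not_lt.1 h3)⟩)
          refine (Finset.card_le_card h1).trans ((Finset.card_union_le _ _).trans ?_)
          refine Nat.add_le_add (hLn _) (Finset.card_le_one.2 fun c hc c' hc' => hθinj c c' ?_)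
          rw [(Finset.mem_filter.1 hc).2, (Finset.mem_filter.1 hc').2]
        · rw [if_neg (fun h => hb8 h.2)]
          have : (Finset.univ.filter fun c => A c v φ = none) = ∅ := by
            rw [Finset.filter_eq_empty_iff]
            intro c _ h
            simp only [A, if_neg hvW] at h
            rw [if_pos ((not_lt.1 hb8).trans_lt (hθ1 c))] at h
            cases h
          rw [this, Finset.card_empty]
    have hsum : ∑ v : Fin d, (Finset.univ.filter fun c => A c v φ = none).card ≤
        n * W.card + (n + 1) * B := by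
      refine (Finset.sum_le_sum fun v _ => hterm v).trans ?_
      rw [Finset.sum_add_distrib, ← Finset.sum_filter, ← Finset.sum_filter, Finset.sum_const,
        Finset.sum_const, smul_eq_mul, smul_eq_mul]
      have h1 : (Finset.univ.filter fun v => v ∈ W) = W := by ext; simp
      rw [h1, mul_comm W.card n, mul_comm _ (n + 1)]
      exact Nat.add_le_add_left (Nat.mul_le_mul_left _ hbad) _
    omega
  · rfl

end

end Pool.Agent.Q68.SM
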