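import Mathlib

/-!
# Sofic mean dimension: definitions
-/

set_option autoImplicit false

namespace Pool.Agent.Q68.SM

open Filter Topology

/-- `(σ i)` is a sofic approximation sequence for the group `G`. -/
structure IsSoficApprox {G : Type} [Group G] {d : ℕ → ℕ}
    (σ : ∀ i, G → Equiv.Perm (Fin (d i))) : Prop where
  tendsto : Tendsto d atTop atTop
  mul : ∀ s t : G, Tendsto (fun i =>
    (Nat.card {k : Fin (d i) // σ i (s * t) k = σ i s (σ i t k)} : ℝ) / d i) atTop (𝓝 1)
  free : ∀ s t : G, s ≠ t → Tendsto (fun i =>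
    (Nat.card {k : Fin (d i) // σ i s k ≠ σ i t k} : ℝ) / d i) atTop (𝓝 1)

/-- The covering dimension of `P` is at most `n`: every finite open cover has a finite open
refinement such that every point is in at most `n + 1` of its members. -/
def CovDimLE (P : Type) [TopologicalSpace P] (n : ℕ) : Prop :=
  ∀ U : Finset (Set P), (∀ u ∈ U, IsOpen u) → (∀ x, ∃ u ∈ U, x ∈ u) →
    ∃ V : Finset (Set P), (∀ v ∈ V, IsOpen v) ∧ (∀ x, ∃ v ∈ V, x ∈ v) ∧
      (∀ v ∈ V, ∃ u ∈ U, v ⊆ u) ∧ ∀ x, Nat.card {v : V // x ∈ v.1} ≤ n + 1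

open Classical in
/-- The covering dimension; `-∞` for the empty space. -/
noncomputable def covDim (P : Type) [TopologicalSpace P] : EReal :=
  if IsEmpty P then ⊥ else ⨅ (n : ℕ) (_ : CovDimLE P n), (n : EReal)

/-- `Widim_ε (Z)`: the least dimension of a compact metrizable space `P` such that there is an
`ε`-embedding `Z → P`. -/
noncomputable def widim (ε : ℝ) (Z : Type) [MetricSpace Z] : EReal :=
  ⨅ (P : Type) (_ : TopologicalSpace P) (_ : CompactSpace P) (_ : TopologicalSpace.MetrizableSpace P)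
    (f : Z → P) (_ : Continuous f) (_ : ∀ x x' : Z, f x = f x' → dist x x' < ε), covDim P

section
variable {G : Type} [Group G] {X : Type} [MetricSpace X] [MulAction G X]

/-- `ρ_2 (φ, ψ) = ((1 / d) ∑ ρ (φ l, ψ l) ^ 2) ^ (1 / 2)` -/
noncomputable def rho2 {d : ℕ} (φ ψ : Fin d → X) : ℝ :=
  Real.sqrt ((∑ l, dist (φ l) (ψ l) ^ 2) / d)

/-- The approximately equivariant maps `Map (ρ, F, δ, σ)`. The metric `ρ_∞` on it is the one of the
product `Fin d → X`. -/
def MapSet (X : Type) [MetricSpace X] [MulAction G X] (F : Finset G) (δ : ℝ) {d : ℕ}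
    (σ : G → Equiv.Perm (Fin d)) : Set (Fin d → X) :=
  {φ | ∀ s ∈ F, rho2 (fun l => φ (σ s l)) (fun l => s • φ l) ≤ δ}

/-- The sofic mean dimension of the action of `G` on `X` with respect to `σ`. -/
noncomputable def mdim (X : Type) [MetricSpace X] [MulAction G X] {d : ℕ → ℕ}
    (σ : ∀ i, G → Equiv.Perm (Fin (d i))) : EReal :=
  ⨆ (ε : ℝ) (_ : 0 < ε), ⨅ (F : Finset G) (δ : ℝ) (_ : 0 < δ),
    limsup (fun i => widim ε (MapSet X F δ (σ i)) / (d i : EReal)) atTop

end

end Pool.Agent.Q68.SM
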