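import Mathlib

/-! A polynomial vanishing on the values of a system of monomials vanishes on the span of the
coefficients of a simplicial face. -/

set_option autoImplicit false

namespace Pool.Agent.Q68.SM

open MvPolynomial Filter Topology

variable {m N : ℕ}

/-- the vector `(1, a)` -/
def vec (a : Fin N →₀ ℕ) : Option (Fin N) → ℝ := fun o => Option.elim o 1 fun l => (a l : ℝ)

theorem vec_none (a : Fin N →₀ ℕ) : vec a none = 1 := rfl
theorem vec_some (a : Fin N →₀ ℕ) (l : Fin N) : vec a (some l) = a l := rfl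

/-- the value of a functional -/
theorem func_vec (ℓ : (Option (Fin N) → ℝ) →ₗ[ℝ] ℝ) (a : Fin N →₀ ℕ) :
    ℓ (vec a) = ℓ (Pi.single none 1) + ∑ l, (a l : ℝ) * ℓ (Pi.single (some l) 1) := by
  classical
  have h : vec a = (Pi.single none 1 : Option (Fin N) → ℝ) +
      ∑ l, (a l : ℝ) • (Pi.single (some l) 1 : Option (Fin N) → ℝ) := by
    ext o
    rw [Pi.add_apply, Finset.sum_apply]
    cases o with
    | none => simp [vec_none]
    | some l =>
      rw [vec_some, Pi.single_eq_of_ne (by simp), zero_add, Finset.sum_eq_single l]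
      · simp
      · intro j _ hj
        rw [Pi.smul_apply, Pi.single_eq_of_ne (by simpa using hj.symm), smul_zero]
      · simp
  rw [h, map_add, map_sum]
  simp only [map_smul, smul_eq_mul]

/-- **Passing to a face.** -/
theorem limit (A : Finset (Fin N →₀ ℕ)) (c : (Fin N →₀ ℕ) → Fin m → ℂ)
    (F : MvPolynomial (Fin m) ℂ)
    (hF : ∀ (μ : ℂ) (τ : Fin N → ℂ), eval (fun i => ∑ a ∈ A, μ * (∏ l, τ l ^ a l) * c a i) F = 0)
    (ℓ : (Option (Fin N) → ℝ) →ₗ[ℝ] ℝ) (hℓ : ∀ a ∈ A, 0 ≤ ℓ (vec a)) (μ : ℂ) (t : Fin N → ℂ) :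
    eval (fun i => ∑ a ∈ A.filter fun a => ℓ (vec a) = 0, μ * (∏ l, t l ^ a l) * c a i) F = 0 := by
  classical
  set x0 := ℓ (Pi.single none 1) with hx0
  set x : Fin N → ℝ := fun l => ℓ (Pi.single (some l) 1) with hx
  have h1 : ∀ (s : ℝ) (a : Fin N →₀ ℕ), (μ * ((Real.exp (-(s * x0)) : ℝ) : ℂ)) *
      (∏ l, (t l * ((Real.exp (-(s * x l)) : ℝ) : ℂ)) ^ a l) =
      μ * (∏ l, t l ^ a l) * ((Real.exp (-(s * ℓ (vec a))) : ℝ) : ℂ) := by
    intro s a
    have h2 : ℓ (vec a) = x0 + ∑ l, (a l : ℝ) * x l := func_vec ℓ a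
    have h3 : Real.exp (-(s * ℓ (vec a))) = Real.exp (-(s * x0)) *
        ∏ l, Real.exp (-(s * x l)) ^ a l := by
      rw [h2]
      simp only [← Real.exp_nat_mul]
      rw [← Real.exp_sum, ← Real.exp_add]
      congr 1
      rw [mul_add, neg_add, Finset.mul_sum, ← Finset.sum_neg_distrib]
      congr 1
      exact Finset.sum_congr rfl fun l _ => by ring
    rw [h3]
    simp only [mul_pow, Finset.prod_mul_distrib]
    push_cast
    ring
  have h2 : ∀ s : ℝ, eval (fun i => ∑ a ∈ A, μ * (∏ l, t l ^ a l) *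
      ((Real.exp (-(s * ℓ (vec a))) : ℝ) : ℂ) * c a i) F = 0 := by
    intro s
    rw [← hF (μ * ((Real.exp (-(s * x0)) : ℝ) : ℂ))
      (fun l => t l * ((Real.exp (-(s * x l)) : ℝ) : ℂ))]
    congr 2
    funext i
    exact Finset.sum_congr rfl fun a _ => by rw [h1]
  have h3 : Tendsto (fun s : ℝ => (fun i => ∑ a ∈ A, μ * (∏ l, t l ^ a l) *
      ((Real.exp (-(s * ℓ (vec a))) : ℝ) : ℂ) * c a i : Fin m → ℂ)) atTop
      (𝓝 (fun i => ∑ a ∈ A.filter fun a => ℓ (vec a) = 0, μ * (∏ l, t l ^ a l) * c a i)) := by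
    rw [tendsto_pi_nhds]
    intro i
    rw [Finset.sum_filter]
    refine tendsto_finset_sum _ fun a ha => ?_
    have h4 : Tendsto (fun s : ℝ => ((Real.exp (-(s * ℓ (vec a))) : ℝ) : ℂ)) atTop
        (𝓝 (if ℓ (vec a) = 0 then 1 else 0)) := by
      split_ifs with h
      · simp only [h, mul_zero, neg_zero, Real.exp_zero, Complex.ofReal_one]
        exact tendsto_const_nhds
      · have hpos : 0 < ℓ (vec a) := lt_of_le_of_ne (hℓ a ha) (Ne.symm h)
        have h5 : Tendsto (fun s : ℝ => Real.exp (-(s * ℓ (vec a)))) atTop (𝓝 0) :=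
          Real.tendsto_exp_neg_atTop_nhds_zero.comp
            (tendsto_id.atTop_mul_const hpos)
        have h7 := (Complex.continuous_ofReal.tendsto 0).comp h5
        rw [Complex.ofReal_zero] at h7
        exact h7
    have h6 := ((h4.const_mul (μ * (∏ l, t l ^ a l))).mul_const (c a i))
    refine h6.congr' ?_ |>.trans_eq ?_
    · exact Eventually.of_forall fun s => rfl
    · split_ifs <;> simp
  have h4 : Tendsto (fun s : ℝ => eval (fun i => ∑ a ∈ A, μ * (∏ l, t l ^ a l) *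
      ((Real.exp (-(s * ℓ (vec a))) : ℝ) : ℂ) * c a i) F) atTop
      (𝓝 (eval (fun i => ∑ a ∈ A.filter fun a => ℓ (vec a) = 0,
        μ * (∏ l, t l ^ a l) * c a i) F)) :=
    ((MvPolynomial.continuous_eval F).tendsto _).comp h3
  simp only [h2] at h4
  exact (tendsto_nhds_unique h4 tendsto_const_nhds)

/-- values of monomials with independent exponents -/
theorem solve (S : Finset (Fin N →₀ ℕ)) (hS : LinearIndependent ℝ (fun a : S => vec (a : Fin N →₀ ℕ)))
    (z : (Fin N →₀ ℕ) → ℂ) (hz : ∀ a ∈ S, z a ≠ 0) :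
    ∃ (μ : ℂ) (t : Fin N → ℂ), ∀ a ∈ S, μ * ∏ l, t l ^ a l = z a := by
  classical
  have hfun : ∀ r : S → ℝ, ∃ η : (Option (Fin N) → ℝ) →ₗ[ℝ] ℝ, ∀ k : S, η (vec k) = r k := by
    intro r
    obtain ⟨η, hη⟩ := LinearMap.exists_extend ((Module.Basis.span hS).constr ℝ r)
    refine ⟨η, fun k => ?_⟩
    have h1 : (Module.Basis.span hS k : Option (Fin N) → ℝ) = vec k := by
      rw [Module.Basis.span_apply]
    have h2 := congrArg (fun g => g (Module.Basis.span hS k)) hη
    simp only [LinearMap.comp_apply, Submodule.subtype_apply, Module.Basis.constr_basis] at h2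
    rw [← h1]
    exact h2
  obtain ⟨η1, h1⟩ := hfun fun a => (Complex.log (z a)).re
  obtain ⟨η2, h2⟩ := hfun fun a => (Complex.log (z a)).im
  refine ⟨Complex.exp (η1 (Pi.single none 1) + η2 (Pi.single none 1) * Complex.I),
    fun l => Complex.exp (η1 (Pi.single (some l) 1) + η2 (Pi.single (some l) 1) * Complex.I),
    fun a ha => ?_⟩
  simp only [← Complex.exp_nat_mul]
  rw [← Complex.exp_sum, ← Complex.exp_add, ← Complex.exp_log (hz a ha)]
  congr 1
  have h3 := h1 ⟨a, ha⟩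
  have h4 := h2 ⟨a, ha⟩
  simp only at h3 h4
  rw [func_vec] at h3 h4
  apply Complex.ext
  · rw [← h3]
    simp
  · rw [← h4]
    simp

/-- **Vanishing on the span.** -/
theorem vanish (S : Finset (Fin N →₀ ℕ)) (hS : LinearIndependent ℝ (fun a : S => vec (a : Fin N →₀ ℕ)))
    (c : (Fin N →₀ ℕ) → Fin m → ℂ) (F : MvPolynomial (Fin m) ℂ)
    (hF : ∀ (μ : ℂ) (t : Fin N → ℂ), eval (fun i => ∑ a ∈ S, μ * (∏ l, t l ^ a l) * c a i) F = 0)
    (z : (Fin N →₀ ℕ) → ℂ) : eval (fun i => ∑ a ∈ S, z a * c a i) F = 0 := by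
  classical
  have h1 : ∀ z : (Fin N →₀ ℕ) → ℂ, (∀ a ∈ S, z a ≠ 0) →
      eval (fun i => ∑ a ∈ S, z a * c a i) F = 0 := by
    intro z hz
    obtain ⟨μ, t, h⟩ := solve S hS z hz
    rw [← hF μ t]
    congr 2
    funext i
    exact Finset.sum_congr rfl fun a ha => by rw [h a ha]
  -- perturbation
  have h2 : Tendsto (fun n : ℕ => (fun i => ∑ a ∈ S, (z a + ((1 / ((n : ℝ) + 1) : ℝ) : ℂ)) * c a i :
      Fin m → ℂ)) atTop (𝓝 (fun i => ∑ a ∈ S, z a * c a i)) := by
    rw [tendsto_pi_nhds]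
    intro i
    refine tendsto_finset_sum _ fun a _ => ?_
    have h3 : Tendsto (fun n : ℕ => ((1 / ((n : ℝ) + 1) : ℝ) : ℂ)) atTop (𝓝 0) := by
      have h7 := (Complex.continuous_ofReal.tendsto 0).comp
        (tendsto_one_div_add_atTop_nhds_zero_nat (𝕜 := ℝ))
      rw [Complex.ofReal_zero] at h7
      exact h7
    have h4 := (h3.const_add (z a)).mul_const (c a i)
    rwa [add_zero] at h4
  have h3 : ∀ᶠ n : ℕ in atTop, ∀ a ∈ S, z a + ((1 / ((n : ℝ) + 1) : ℝ) : ℂ) ≠ 0 := by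
    rw [Filter.eventually_all_finset]
    intro a _
    by_cases h : z a = 0
    · refine Eventually.of_forall fun n => ?_
      rw [h, zero_add]
      have : (1 / ((n : ℝ) + 1)) ≠ 0 := by positivity
      exact_mod_cast this
    · have h3 : Tendsto (fun n : ℕ => z a + ((1 / ((n : ℝ) + 1) : ℝ) : ℂ)) atTop (𝓝 (z a)) := by
        have := ((Complex.continuous_ofReal.tendsto 0).comp
          (tendsto_one_div_add_atTop_nhds_zero_nat (𝕜 := ℝ))).const_add (z a)
        simpa using this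
      exact h3.eventually_ne h
  have h4 := ((MvPolynomial.continuous_eval F).tendsto _).comp h2
  have h5 : ∀ᶠ n : ℕ in atTop, eval (fun i => ∑ a ∈ S,
      (z a + ((1 / ((n : ℝ) + 1) : ℝ) : ℂ)) * c a i) F = 0 := by
    filter_upwards [h3] with n hn
    exact h1 _ hn
  refine tendsto_nhds_unique h4 ?_
  refine (tendsto_congr' ?_).2 tendsto_const_nhds
  filter_upwards [h5] with n hn
  exact hn

end Pool.Agent.Q68.SM
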