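import Mathlib
import Pool.Agent.TH314.PD.Core2
import Pool.Agent.TH314.PD.Hilb

/-! The number of monomials of a parametrization of a hypersurface with algebraically independent
coefficients. -/

set_option autoImplicit false

namespace Pool.Agent.Q68.SM

open MvPolynomial

theorem card_le_of_mem {ι : Type} [Fintype ι] (x : ι → ℂ) (hx : AlgebraicIndependent ℚ x)
    (S : Finset ℂ) (hS : ∀ i, x i ∈ IntermediateField.adjoin ℚ (S : Set ℂ)) :
    Fintype.card ι ≤ S.card := by
  classical
  have h1 : (AlgebraicIndependent.matroid ℚ ℂ).Indep (Set.range x) := by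
    rw [AlgebraicIndependent.matroid_indep_iff]
    exact hx.coe_range
  have h2 : Set.range x ⊆ (AlgebraicIndependent.matroid ℚ ℂ).closure (S : Set ℂ) := by
    rw [AlgebraicIndependent.matroid_closure_eq]
    rintro _ ⟨i, rfl⟩
    rw [SetLike.mem_coe, Subalgebra.mem_algebraicClosure]
    obtain ⟨r, hr, s, hs, h⟩ := IntermediateField.mem_adjoin_iff_div.1 (hS i)
    rw [h, div_eq_mul_inv]
    have h3 : IsAlgebraic (Algebra.adjoin ℚ (S : Set ℂ)) r :=
      isAlgebraic_algebraMap (⟨r, hr⟩ : Algebra.adjoin ℚ (S : Set ℂ))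
    have h4 : IsAlgebraic (Algebra.adjoin ℚ (S : Set ℂ)) s :=
      isAlgebraic_algebraMap (⟨s, hs⟩ : Algebra.adjoin ℚ (S : Set ℂ))
    exact h3.mul h4.inv
  have h3 := h1.encard_le_eRk_of_subset h2
  rw [Matroid.eRk_closure_eq] at h3
  have h4 := h3.trans (Matroid.eRk_le_encard _ _)
  have h5 : (Set.range x).encard = Fintype.card ι := by
    rw [← Set.image_univ, hx.injective.encard_image, Set.encard_univ, ENat.card_eq_coe_fintype_card]
  rw [h5, Set.encard_coe_eq_coe_finsetCard] at h4
  exact_mod_cast h4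

variable {n N d : ℕ}

/-- **Counting parameters.** -/
theorem dim_count (F : MvPolynomial (Fin (n + 2)) ℂ) (hF : F.IsHomogeneous d)
    (G : Fin (n + 2) → MvPolynomial (Fin N) ℂ) (hFG : aeval G F = 0)
    (hdom : ∀ q (H : MvPolynomial (Fin (n + 2)) ℂ), H.IsHomogeneous q → aeval G H = 0 → F ∣ H)
    (A : Finset (Fin N →₀ ℕ)) (hA : ∀ i, (G i).support ⊆ A)
    (halg : AlgebraicIndependent ℚ fun α : {α : Fin (n + 2) →₀ ℕ // ∑ i, α i = d} =>
      coeff (α : Fin (n + 2) →₀ ℕ) F) :
    (d + (n + 1)).choose (n + 1) ≤ (n + 2) * A.card + 1 := by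
  classical
  -- the coefficients of the parametrization
  set T : Finset ℂ := (A ×ˢ (Finset.univ : Finset (Fin (n + 2)))).image
    fun p => coeff p.1 (G p.2) with hT
  have hTcard : T.card ≤ (n + 2) * A.card := by
    refine Finset.card_image_le.trans ?_
    rw [Finset.card_product, Finset.card_univ, Fintype.card_fin, mul_comm]
  set L := IntermediateField.adjoin ℚ (T : Set ℂ) with hL
  have hcoef : ∀ i a, coeff a (G i) ∈ L := by
    intro i a
    by_cases ha : a ∈ A
    · refine IntermediateField.subset_adjoin ℚ _ ?_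
      rw [Finset.mem_coe, hT, Finset.mem_image]
      exact ⟨(a, i), Finset.mem_product.2 ⟨ha, Finset.mem_univ _⟩, rfl⟩
    · rw [notMem_support_iff.1 (fun h => ha (hA i h))]
      exact L.zero_mem
  -- the parametrization over `L`
  have hG' : ∀ i, ∃ g : MvPolynomial (Fin N) L, map (algebraMap L ℂ) g = G i := by
    intro i
    refine ⟨∑ a ∈ (G i).support, monomial a (⟨coeff a (G i), hcoef i a⟩ : L), ?_⟩
    rw [map_sum]
    conv_rhs => rw [(G i).as_sum]
    exact Finset.sum_congr rfl fun a _ => by rw [map_monomial]; rfl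
  choose g hg using hG'
  have hmono : ∀ (α : Fin (n + 2) →₀ ℕ) γ, coeff γ (∏ i, G i ^ α i) =
      algebraMap L ℂ (coeff γ (∏ i, g i ^ α i)) := by
    intro α γ
    rw [← coeff_map, map_prod]
    congr 1
    exact Finset.prod_congr rfl fun i _ => by rw [map_pow, hg]
  -- a nonzero coefficient
  have hne : ∃ β, coeff β F ≠ 0 := by
    have h1 := halg.ne_zero ⟨Finsupp.single 0 d, by
      rw [Finset.sum_eq_single 0]
      · simp
      · intro j _ hj
        rw [Finsupp.single_eq_of_ne hj]
      · simp⟩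
    exact ⟨_, h1⟩
  obtain ⟨β, hβ⟩ := hne
  obtain ⟨ψ, hψ⟩ : ∃ ψ : Module.Dual L ℂ, ψ (coeff β F) ≠ 0 := by
    by_contra hcon
    push Not at hcon
    exact hβ ((Module.forall_dual_apply_eq_zero_iff L (coeff β F)).1 hcon)
  set H : MvPolynomial (Fin (n + 2)) ℂ :=
    ∑ α ∈ F.support, monomial α (algebraMap L ℂ (ψ (coeff α F))) with hH
  have hHcoef : ∀ α, coeff α H = algebraMap L ℂ (ψ (coeff α F)) := by
    intro α
    rw [hH, coeff_sum]
    simp only [coeff_monomial]
    rw [Finset.sum_ite_eq']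
    split_ifs with h
    · rfl
    · rw [notMem_support_iff.1 h, map_zero, map_zero]
  have hHd : H.IsHomogeneous d := by
    refine IsHomogeneous.sum _ _ _ fun α hα => isHomogeneous_monomial _ ?_
    have := hF (mem_support_iff.1 hα)
    rw [Finsupp.degree_eq_weight_one]
    exact this
  have hmon : ∀ (Q : MvPolynomial (Fin (n + 2)) ℂ) γ, coeff γ (aeval G Q) =
      ∑ α ∈ Q.support, coeff α Q * algebraMap L ℂ (coeff γ (∏ i, g i ^ α i)) := by
    intro Q γ
    rw [aeval_def, eval₂_eq', coeff_sum]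
    refine Finset.sum_congr rfl fun α _ => ?_
    rw [MvPolynomial.algebraMap_eq, coeff_C_mul, hmono]
  have hHG : aeval G H = 0 := by
    ext γ
    rw [coeff_zero, hmon]
    have hsub : H.support ⊆ F.support := by
      intro α hα
      rw [mem_support_iff, hHcoef] at hα
      rw [mem_support_iff]
      intro h
      exact hα (by rw [h, map_zero, map_zero])
    rw [Finset.sum_subset hsub (fun α _ hα => by rw [notMem_support_iff.1 hα, zero_mul])]
    have h1 := hmon F γ
    rw [hFG, coeff_zero] at h1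
    have h2 := congrArg ψ h1
    rw [map_zero, map_sum] at h2
    have h3 := congrArg (algebraMap L ℂ) h2
    rw [map_zero, map_sum] at h3
    rw [h3]
    refine Finset.sum_congr rfl fun α _ => ?_
    rw [hHcoef, ← map_mul, mul_comm (coeff α F), ← Algebra.smul_def, map_smul, smul_eq_mul,
      mul_comm]
  obtain ⟨B, hB⟩ := hdom d H hHd hHG
  have hH0 : H ≠ 0 := by
    intro h
    have h1 := hHcoef β
    rw [h, coeff_zero] at h1
    exact hψ ((map_eq_zero (algebraMap L ℂ)).1 h1.symm)
  have hF0 : F ≠ 0 := by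
    rintro rfl
    exact hβ (coeff_zero _)
  have hB0 : B ≠ 0 := by
    rintro rfl
    exact hH0 (by rw [hB, mul_zero])
  have hdeg := totalDegree_mul_of_isDomain hF0 hB0
  rw [← hB, hHd.totalDegree hH0, hF.totalDegree hF0] at hdeg
  have hBC : B = C (coeff 0 B) := totalDegree_eq_zero_iff_eq_C.1 (by omega)
  set c := coeff 0 B with hc
  have hc0 : c ≠ 0 := by
    intro h
    rw [h, map_zero] at hBC
    exact hB0 hBC
  have hfc : ∀ α, coeff α F = c⁻¹ * algebraMap L ℂ (ψ (coeff α F)) := by
    intro α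
    rw [← hHcoef, hB, hBC, mul_comm F, coeff_C_mul, ← mul_assoc, inv_mul_cancel₀ hc0, one_mul]
  have hmem : ∀ α : {α : Fin (n + 2) →₀ ℕ // ∑ i, α i = d}, coeff (α : Fin (n + 2) →₀ ℕ) F ∈
      IntermediateField.adjoin ℚ ((insert c T : Finset ℂ) : Set ℂ) := by
    intro α
    rw [hfc]
    have h1 : L ≤ IntermediateField.adjoin ℚ ((insert c T : Finset ℂ) : Set ℂ) := by
      refine IntermediateField.adjoin.mono ℚ _ _ ?_
      rw [Finset.coe_insert]
      exact Set.subset_insert _ _
    have h2 : c ∈ IntermediateField.adjoin ℚ ((insert c T : Finset ℂ) : Set ℂ) :=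
      IntermediateField.subset_adjoin ℚ _ (Finset.mem_coe.2 (Finset.mem_insert_self _ _))
    exact mul_mem (inv_mem h2) (h1 (ψ (coeff (α : Fin (n + 2) →₀ ℕ) F)).2)
  let eqv : {α : Fin (n + 2) →₀ ℕ // ∑ i, α i = d} ≃
      ((Finset.univ : Finset (Fin (n + 2))).finsuppAntidiag d) :=
    Equiv.subtypeEquivRight fun α => by
      rw [Finset.mem_finsuppAntidiag]
      simp only [Finset.subset_univ, and_true]
  haveI : Fintype {α : Fin (n + 2) →₀ ℕ // ∑ i, α i = d} := Fintype.ofEquiv _ eqv.symm
  have h1 := card_le_of_mem _ halg _ hmem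
  rw [Fintype.card_congr eqv, Fintype.card_coe, Finset.card_finsuppAntidiag_nat_eq_choose,
    Finset.card_univ, Fintype.card_fin] at h1
  have h2 : n + 2 + d - 1 = (n + 1) + d := by omega
  rw [h2, ← Nat.choose_symm_add, add_comm (n + 1) d] at h1
  have h3 := Finset.card_insert_le c T
  omega

end Pool.Agent.Q68.SM
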