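import Mathlib
import Pool.Agent.H552R3.Tsen.Zero

/-! A smooth hypersurface in `m` variables contains no linear subspace of dimension more than
`m / 2`. -/

set_option autoImplicit false

namespace Pool.Agent.Q68.SM

open MvPolynomial

variable {m : ℕ}

theorem chain (g : Fin m → Polynomial ℂ) (F : MvPolynomial (Fin m) ℂ) :
    Polynomial.derivative (aeval g F) =
      ∑ i, aeval g (pderiv i F) * Polynomial.derivative (g i) := by
  classical
  induction F using MvPolynomial.induction_on with
  | C a => simp
  | add p q hp hq => simp only [map_add, hp, hq, add_mul, Finset.sum_add_distrib]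
  | mul_X p j hp =>
    rw [map_mul, aeval_X, Polynomial.derivative_mul, hp]
    have h1 : ∀ i, aeval g (pderiv i (p * X j)) * Polynomial.derivative (g i) =
        aeval g (pderiv i p) * Polynomial.derivative (g i) * g j +
        (if i = j then aeval g p * Polynomial.derivative (g i) else 0) := by
      intro i
      rw [pderiv_mul, map_add, map_mul, map_mul, aeval_X, pderiv_X]
      by_cases h : i = j
      · subst h
        rw [Pi.single_eq_same, map_one, if_pos rfl]
        ring
      · rw [Pi.single_eq_of_ne (Ne.symm h), map_zero, if_neg h]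
        ring
    simp only [h1, Finset.sum_add_distrib, Finset.sum_ite_eq', Finset.mem_univ, if_true,
      Finset.sum_mul]

/-- the gradient along a line contained in the hypersurface -/
theorem grad_zero (F : MvPolynomial (Fin m) ℂ) (z v : Fin m → ℂ)
    (h : ∀ s : ℂ, eval (z + s • v) F = 0) : ∑ i, eval z (pderiv i F) * v i = 0 := by
  set g : Fin m → Polynomial ℂ := fun i => Polynomial.C (z i) + Polynomial.C (v i) * Polynomial.X
    with hg
  have h1 : ∀ (s : ℂ) (H : MvPolynomial (Fin m) ℂ), Polynomial.eval s (aeval g H) =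
      eval (z + s • v) H := by
    intro s H
    have h2 : (Polynomial.aeval s).comp (aeval g) = (aeval (z + s • v) : MvPolynomial (Fin m) ℂ →ₐ[ℂ] ℂ) := by
      apply MvPolynomial.algHom_ext
      intro i
      simp only [AlgHom.comp_apply, aeval_X, hg, map_add, map_mul, Polynomial.aeval_C,
        Polynomial.aeval_X, Pi.add_apply, Pi.smul_apply, smul_eq_mul, Algebra.algebraMap_self,
        RingHom.id_apply]
      ring
    have h3 := congrArg (fun f => f H) (congrArg DFunLike.coe h2)
    simp only [AlgHom.comp_apply] at h3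
    rw [← Polynomial.coe_aeval_eq_eval]
    rw [h3]
    rfl
  have h2 : aeval g F = 0 := by
    apply Polynomial.funext
    intro s
    rw [h1, h, Polynomial.eval_zero]
  have h3 := chain g F
  rw [h2, Polynomial.derivative_zero] at h3
  have h4 := congrArg (Polynomial.eval 0) h3
  rw [Polynomial.eval_zero, Polynomial.eval_finset_sum] at h4
  rw [h4]
  refine Finset.sum_congr rfl fun i _ => ?_
  rw [Polynomial.eval_mul, h1, zero_smul, add_zero]
  simp [hg]

/-- **Linear spaces on smooth hypersurfaces.** -/
theorem smooth_bound {d : ℕ} (hd : 2 ≤ d) (F : MvPolynomial (Fin m) ℂ) (hF : F.IsHomogeneous d)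
    (hsm : ∀ z : Fin m → ℂ, (∀ i, eval z (pderiv i F) = 0) → z = 0)
    (W : Submodule ℂ (Fin m → ℂ)) (hW : ∀ z ∈ W, eval z F = 0) :
    2 * Module.finrank ℂ W ≤ m := by
  classical
  by_contra hcon
  push Not at hcon
  obtain ⟨W', hWW'⟩ := Submodule.exists_isCompl W
  have hdim : Module.finrank ℂ W + Module.finrank ℂ W' = m := by
    have := Submodule.finrank_add_eq_of_isCompl hWW'
    rwa [Module.finrank_fintype_fun_eq_card, Fintype.card_fin] at this
  let b := Module.finBasis ℂ W
  let b' := Module.finBasis ℂ W'
  let g : Fin m → MvPolynomial (Fin (Module.finrank ℂ W)) ℂ := fun i =>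
    ∑ k, C ((b k : Fin m → ℂ) i) * X k
  let P : Fin (Module.finrank ℂ W') → MvPolynomial (Fin (Module.finrank ℂ W)) ℂ := fun k =>
    ∑ i, aeval g (pderiv i F) * C ((b' k : Fin m → ℂ) i)
  have hev : ∀ (u : Fin (Module.finrank ℂ W) → ℂ) (H : MvPolynomial (Fin m) ℂ),
      eval u (aeval g H) = eval (∑ k, u k • (b k : Fin m → ℂ)) H := by
    intro u H
    have h2 : (aeval u).comp (aeval g) =
        (aeval (∑ k, u k • (b k : Fin m → ℂ)) : MvPolynomial (Fin m) ℂ →ₐ[ℂ] ℂ) := by
      apply MvPolynomial.algHom_ext
      intro i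
      simp [g, mul_comm]
    exact congrArg (fun f => f H) (congrArg DFunLike.coe h2)
  have hP : ∀ k, eval 0 (P k) = 0 := by
    intro k
    simp only [P, map_sum, map_mul, eval_C]
    refine Finset.sum_eq_zero fun i _ => ?_
    rw [hev]
    have h1 : (∑ k, (0 : Fin (Module.finrank ℂ W) → ℂ) k • (b k : Fin m → ℂ)) = 0 := by simp
    rw [h1]
    have h2 : (pderiv i F).IsHomogeneous (d - 1) := hF.pderiv
    have h3 : eval 0 (pderiv i F) = 0 := by
      rw [MvPolynomial.eval_zero, MvPolynomial.constantCoeff_eq]
      refine h2.coeff_eq_zero ?_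
      rw [map_zero]
      omega
    rw [h3, zero_mul]
  obtain ⟨u, hu, hPu⟩ := Pool.Agent.H552R3.Tsen.exists_common_zero P hP (by
    rw [Fintype.card_fin, Fintype.card_fin]; omega)
  set z : Fin m → ℂ := ∑ k, u k • (b k : Fin m → ℂ) with hz
  have hzW : z ∈ W := by
    rw [hz]
    exact Submodule.sum_mem _ fun k _ => W.smul_mem _ (b k).2
  have hz0 : z ≠ 0 := by
    intro h0
    refine hu ?_
    have h1 : (∑ k, u k • b k) = 0 := by
      apply Subtype.ext
      rw [Submodule.coe_zero, ← h0, hz]
      simp
    have h2 := Fintype.linearIndependent_iff.1 b.linearIndependent u h1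
    funext k
    exact h2 k
  refine hz0 (hsm z ?_)
  -- the gradient functional
  let φ : (Fin m → ℂ) →ₗ[ℂ] ℂ :=
    { toFun := fun v => ∑ i, eval z (pderiv i F) * v i
      map_add' := fun v w => by simp [mul_add, Finset.sum_add_distrib]
      map_smul' := fun c v => by simp [Finset.mul_sum, mul_left_comm] }
  have hφW : ∀ v ∈ W, φ v = 0 := by
    intro v hv
    exact grad_zero F z v fun s => hW _ (W.add_mem hzW (W.smul_mem _ hv))
  have hφW' : ∀ v ∈ W', φ v = 0 := by
    have h1 : ∀ k, φ (b' k : Fin m → ℂ) = 0 := by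
      intro k
      have h2 := hPu k
      simp only [P, map_sum, map_mul, eval_C, hev] at h2
      exact h2
    have h3 : φ.comp W'.subtype = 0 := by
      apply b'.ext
      intro k
      simpa using h1 k
    intro v hv
    have := congrArg (fun f => f ⟨v, hv⟩) h3
    simpa using this
  have hφ : ∀ v, φ v = 0 := by
    intro v
    have hv : v ∈ W ⊔ W' := by rw [hWW'.sup_eq_top]; trivial
    obtain ⟨x, hx, y, hy, rfl⟩ := Submodule.mem_sup.1 hv
    rw [map_add, hφW x hx, hφW' y hy, add_zero]
  intro i
  have := hφ (Pi.single i 1)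
  simp only [φ, LinearMap.coe_mk, AddHom.coe_mk] at this
  rw [Finset.sum_eq_single i] at this
  · simpa using this
  · intro j _ hj
    rw [Pi.single_eq_of_ne hj, mul_zero]
  · simp

end Pool.Agent.Q68.SM
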