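import Mathlib
import Pool.Agent.Q68.SM.Cara
import Pool.Agent.Q68.SM.Expo
import Pool.Agent.Q68.SM.Smooth
import Pool.Agent.Y196.Sp.Newt

/-! The number of monomials of a parametrization of a smooth hypersurface. -/

set_option autoImplicit false

namespace Pool.Agent.Q68.SM

open MvPolynomial

variable {n N d : ℕ}

/-- the exponents of a dominant parametrization span a space of dimension at least `n + 1` -/
theorem rank_bound (hd : 2 ≤ d) (F : MvPolynomial (Fin (n + 2)) ℂ) (hF : F.IsHomogeneous d)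
    (hsm : ∀ z : Fin (n + 2) → ℂ, (∀ i, eval z (pderiv i F) = 0) → z = 0)
    (G : Fin (n + 2) → MvPolynomial (Fin N) ℂ) (hFG : aeval G F = 0)
    (hdom : ∀ q (H : MvPolynomial (Fin (n + 2)) ℂ), H.IsHomogeneous q → aeval G H = 0 → F ∣ H)
    (A : Finset (Fin N →₀ ℕ)) (hA : ∀ i, (G i).support ⊆ A) :
    n + 1 ≤ Module.finrank ℝ (Submodule.span ℝ
      (Set.range fun a : A => vec (a : Fin N →₀ ℕ))) := by
  classical
  by_contra hcon
  push Not at hcon
  obtain ⟨c, g, hg, hc, -, -, hfd, hvol⟩ := Pool.Agent.Y196.Sp.newt_param hd F hF hsm G hFG hdom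
  let π : (Option (Fin N) → ℝ) →ₗ[ℝ] (Option (Fin n) → ℝ) :=
    LinearMap.funLeft ℝ ℝ (Option.map g)
  set S := Submodule.span ℝ (Set.range fun a : A => vec (a : Fin N →₀ ℕ)) with hS
  have h1 : Module.finrank ℝ (S.map π) < Module.finrank ℝ (Option (Fin n) → ℝ) := by
    rw [Module.finrank_fintype_fun_eq_card, Fintype.card_option, Fintype.card_fin]
    exact lt_of_le_of_lt (Submodule.finrank_map_le π S) hcon
  have h2 : S.map π < ⊤ := by
    rw [lt_top_iff_ne_top]
    intro h
    rw [h, finrank_top] at h1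
    exact lt_irrefl _ h1
  obtain ⟨φ, hφ0, hφ⟩ := Submodule.exists_le_ker_of_lt_top _ h2
  have hφA : ∀ a ∈ A, φ (π (vec a)) = 0 := by
    intro a ha
    refine hφ ?_
    exact Submodule.mem_map_of_mem (Submodule.subset_span ⟨⟨a, ha⟩, rfl⟩)
  set y0 : ℝ := φ (Pi.single none 1) with hy0
  set y : Fin n → ℝ := fun s => φ (Pi.single (some s) 1) with hy
  have hφv : ∀ w : Option (Fin n) → ℝ, φ w = w none * y0 + ∑ s, w (some s) * y s := by
    intro w
    have h : w = w none • (Pi.single none 1 : Option (Fin n) → ℝ) +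
        ∑ s, w (some s) • (Pi.single (some s) 1 : Option (Fin n) → ℝ) := by
      ext o
      rw [Pi.add_apply, Finset.sum_apply]
      cases o with
      | none => simp
      | some l =>
        rw [Pi.smul_apply, Pi.single_eq_of_ne (by simp), smul_zero, zero_add,
          Finset.sum_eq_single l]
        · simp
        · intro j _ hj
          rw [Pi.smul_apply, Pi.single_eq_of_ne (by simpa using hj.symm), smul_zero]
        · simp
    conv_lhs => rw [h]
    rw [map_add, map_sum]
    simp only [map_smul, smul_eq_mul, hy0, hy]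
  let s : AffineSubspace ℝ (Fin n → ℝ) :=
    { carrier := {p | y0 + ∑ l, p l * y l = 0}
      smul_vsub_vadd_mem' := by
        intro t p q r hp hq hr
        simp only [Set.mem_setOf_eq] at hp hq hr ⊢
        have : ∑ l, (t • (p -ᵥ q) +ᵥ r) l * y l =
            t * (∑ l, p l * y l - ∑ l, q l * y l) + ∑ l, r l * y l := by
          rw [← Finset.sum_sub_distrib, Finset.mul_sum, ← Finset.sum_add_distrib]
          refine Finset.sum_congr rfl fun l _ => ?_
          simp only [vsub_eq_sub, vadd_eq_add, Pi.add_apply, Pi.smul_apply, Pi.sub_apply,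
            smul_eq_mul]
          ring
        rw [this]
        linear_combination t * hp - t * hq + hr }
  have hs : s ≠ ⊤ := by
    intro h
    have h3 : ∀ p : Fin n → ℝ, y0 + ∑ l, p l * y l = 0 := by
      intro p
      have : p ∈ s := by rw [h]; trivial
      exact this
    have h4 : y0 = 0 := by simpa using h3 0
    have h5 : ∀ l, y l = 0 := by
      intro l
      have := h3 (Pi.single l 1)
      rw [h4, zero_add, Finset.sum_eq_single l] at this
      · simpa using this
      · intro j _ hj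
        rw [Pi.single_eq_of_ne hj, zero_mul]
      · simp
    refine hφ0 (LinearMap.ext fun w => ?_)
    rw [hφv, h4, LinearMap.zero_apply]
    simp [h5]
  have hvs : MeasureTheory.volume (s : Set (Fin n → ℝ)) = 0 :=
    MeasureTheory.Measure.addHaar_affineSubspace _ s hs
  have hsub : Pool.Agent.Y196.Sp.npoly A g ⊆ (s : Set (Fin n → ℝ)) := by
    refine convexHull_min ?_ s.convex
    rintro _ ⟨a, ha, rfl⟩
    have := hφA a ha
    rw [hφv] at this
    have h3 : π (vec a) none = 1 := rfl
    have h4 : ∀ l, π (vec a) (some l) = a (g l) := fun l => rfl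
    rw [h3] at this
    simp only [h4] at this
    rw [one_mul] at this
    exact this
  have hv0 : MeasureTheory.volume (Pool.Agent.Y196.Sp.npoly A g) = 0 :=
    le_antisymm ((MeasureTheory.measure_mono hsub).trans hvs.le) bot_le
  have h6 := hvol (convex_convexHull ℝ _) (Pool.Agent.Y196.Sp.npoly_compact A g)
    fun i a ha => subset_convexHull ℝ _ ⟨a, Finset.mem_coe.2 (hA i ha), rfl⟩
  change _ ≤ _ * (MeasureTheory.volume (Pool.Agent.Y196.Sp.npoly A g)).toReal at h6
  rw [hv0, ENNReal.toReal_zero, mul_zero] at h6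
  have h7 : 0 < Module.finrank (Pool.Agent.TH314.PD.ratioField fun i =>
      algebraMap (MvPolynomial (Fin n) ℂ) (FractionRing (MvPolynomial (Fin n) ℂ))
        (aeval (Pool.Agent.Y196.Sp.spc c g) (G i))) (FractionRing (MvPolynomial (Fin n) ℂ)) :=
    Module.finrank_pos
  have h8 : 0 < d * (d - 1) ^ n := by
    have : 0 < d - 1 := by omega
    positivity
  have h9 : (0 : ℝ) < (Module.finrank (Pool.Agent.TH314.PD.ratioField fun i =>
      algebraMap (MvPolynomial (Fin n) ℂ) (FractionRing (MvPolynomial (Fin n) ℂ))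
        (aeval (Pool.Agent.Y196.Sp.spc c g) (G i))) (FractionRing (MvPolynomial (Fin n) ℂ)) : ℝ) *
        (d * (d - 1) ^ n : ℕ) := by positivity
  linarith

/-- the coefficient vectors span the space -/
theorem coef_span (hd : 2 ≤ d) (F : MvPolynomial (Fin (n + 2)) ℂ) (hF : F.IsHomogeneous d)
    (hF0 : F ≠ 0) (G : Fin (n + 2) → MvPolynomial (Fin N) ℂ)
    (hdom : ∀ q (H : MvPolynomial (Fin (n + 2)) ℂ), H.IsHomogeneous q → aeval G H = 0 → F ∣ H)
    (A : Finset (Fin N →₀ ℕ)) (hA : ∀ i, (G i).support ⊆ A) :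
    Submodule.span ℂ ((fun (a : Fin N →₀ ℕ) (i : Fin (n + 2)) => coeff a (G i)) ''
      (A : Set (Fin N →₀ ℕ))) = ⊤ := by
  classical
  by_contra hcon
  obtain ⟨φ, hφ0, hφ⟩ := Submodule.exists_le_ker_of_lt_top _ (lt_top_iff_ne_top.2 hcon)
  set H : MvPolynomial (Fin (n + 2)) ℂ := ∑ i, C (φ (Pi.single i 1)) * X i with hH
  have hφv : ∀ w : Fin (n + 2) → ℂ, φ w = ∑ i, w i * φ (Pi.single i 1) := by
    intro w
    conv_lhs => rw [← Finset.univ_sum_single w]
    rw [map_sum]
    refine Finset.sum_congr rfl fun i _ => ?_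
    rw [← smul_eq_mul, ← map_smul]
    congr 1
    rw [← Pi.single_smul]
    simp
  have hH1 : H.IsHomogeneous 1 := by
    refine IsHomogeneous.sum _ _ _ fun i _ => ?_
    have := (isHomogeneous_C (Fin (n + 2)) (φ (Pi.single i 1))).mul (isHomogeneous_X ℂ i)
    rwa [zero_add] at this
  have hH0 : aeval G H = 0 := by
    rw [hH, map_sum]
    ext a
    rw [coeff_sum, coeff_zero]
    by_cases ha : a ∈ A
    · have h1 : φ (fun i => coeff a (G i)) = 0 := hφ (Submodule.subset_span ⟨a, ha, rfl⟩)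
      rw [hφv] at h1
      rw [← h1]
      refine Finset.sum_congr rfl fun i _ => ?_
      rw [map_mul, aeval_X, algHom_C, MvPolynomial.algebraMap_eq, coeff_C_mul, mul_comm]
    · refine Finset.sum_eq_zero fun i _ => ?_
      rw [map_mul, aeval_X, algHom_C, MvPolynomial.algebraMap_eq, coeff_C_mul,
        notMem_support_iff.1 (fun h => ha (hA i h)), mul_zero]
  have hdvd := hdom 1 H hH1 hH0
  have hHz : H = 0 := Pool.Agent.TH314.PD.eq_zero_of_dvd hF hF0 hH1 (by omega) hdvd
  refine hφ0 (LinearMap.ext fun w => ?_)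
  rw [hφv, LinearMap.zero_apply]
  refine Finset.sum_eq_zero fun i _ => ?_
  have h1 := congrArg (coeff (Finsupp.single i 1)) hHz
  rw [hH, coeff_sum, coeff_zero] at h1
  rw [Finset.sum_eq_single i] at h1
  · rw [coeff_C_mul, coeff_X', if_pos rfl, mul_one] at h1
    rw [h1, mul_zero]
  · intro j _ hj
    rw [coeff_C_mul, coeff_X', if_neg, mul_zero]
    intro h
    exact hj (Finsupp.single_left_injective one_ne_zero h)
  · simp

/-- **Linear subspaces from sparse parametrizations.** -/
theorem linear_space (hd : 2 ≤ d) (F : MvPolynomial (Fin (n + 2)) ℂ) (hF : F.IsHomogeneous d)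
    (hsm : ∀ z : Fin (n + 2) → ℂ, (∀ i, eval z (pderiv i F) = 0) → z = 0)
    (G : Fin (n + 2) → MvPolynomial (Fin N) ℂ) (hFG : aeval G F = 0)
    (hdom : ∀ q (H : MvPolynomial (Fin (n + 2)) ℂ), H.IsHomogeneous q → aeval G H = 0 → F ∣ H)
    (A : Finset (Fin N →₀ ℕ)) (hA : ∀ i, (G i).support ⊆ A) :
    ∃ W : Submodule ℂ (Fin (n + 2) → ℂ), (∀ z ∈ W, eval z F = 0) ∧
      3 * n + 4 ≤ Module.finrank ℂ W + 2 * A.card := by
  classical
  set v : A → Option (Fin N) → ℝ := fun a => vec (a : Fin N →₀ ℕ) with hv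
  obtain ⟨ℓ, hℓ, hli, hcard⟩ := face v (LinearMap.proj none) fun a => rfl
  have hrank := rank_bound hd F hF hsm G hFG hdom A hA
  rw [Fintype.card_coe] at hcard
  set S := A.filter fun a => ℓ (vec a) = 0 with hS
  set J := A.filter fun a => ℓ (vec a) ≠ 0 with hJ
  have hJcard : J.card = (Finset.univ.filter fun a : A => ℓ (v a) ≠ 0).card := by
    rw [← Finset.card_map (Function.Embedding.subtype (· ∈ A))]
    congr 1
    ext a
    simp only [hJ, Finset.mem_filter, Finset.mem_map, Finset.mem_univ, true_and, hv]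
    constructor
    · rintro ⟨h1, h2⟩
      exact ⟨⟨a, h1⟩, h2, rfl⟩
    · rintro ⟨⟨b, hb⟩, h2, rfl⟩
      exact ⟨hb, h2⟩
  have hSli : LinearIndependent ℝ (fun a : S => vec (a : Fin N →₀ ℕ)) := by
    have hmem : ∀ a : S, ∃ b : {b : A // ℓ (v b) = 0}, ((b : A) : Fin N →₀ ℕ) = a := by
      intro a
      obtain ⟨h1, h2⟩ := Finset.mem_filter.1 a.2
      exact ⟨⟨⟨a, h1⟩, h2⟩, rfl⟩
    choose f hf using hmem
    have hfinj : Function.Injective f := by
      intro a b h
      apply Subtype.ext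
      rw [← hf a, ← hf b, h]
    have h1 : (fun a : S => vec (a : Fin N →₀ ℕ)) =
        (fun a : {a // ℓ (v a) = 0} => v a) ∘ f := by
      funext a
      change vec (a : Fin N →₀ ℕ) = vec ((f a : A) : Fin N →₀ ℕ)
      rw [hf a]
    rw [h1]
    exact hli.comp f hfinj
  set c : (Fin N →₀ ℕ) → Fin (n + 2) → ℂ := fun a i => coeff a (G i) with hc
  have hG : ∀ (τ : Fin N → ℂ) i, eval τ (G i) = ∑ a ∈ A, (∏ l, τ l ^ a l) * c a i := by
    intro τ i
    rw [MvPolynomial.eval_eq', Finset.sum_subset (hA i)]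
    · exact Finset.sum_congr rfl fun a _ => by rw [mul_comm]
    · intro a _ ha
      rw [notMem_support_iff.1 ha, zero_mul]
  have hF1 : ∀ (μ : ℂ) (τ : Fin N → ℂ),
      eval (fun i => ∑ a ∈ A, μ * (∏ l, τ l ^ a l) * c a i) F = 0 := by
    intro μ τ
    have h1 : (fun i => ∑ a ∈ A, μ * (∏ l, τ l ^ a l) * c a i) = fun i => μ * eval τ (G i) := by
      funext i
      rw [hG, Finset.mul_sum]
      exact Finset.sum_congr rfl fun a _ => by ring
    rw [h1]
    have h2 := Pool.Agent.TH314.PD.aeval_smul_form hF μ (fun i => eval τ (G i))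
    have h3 : eval τ (aeval G F) = aeval (fun i => eval τ (G i)) F := by
      have h4 : (aeval τ).comp (aeval G) =
          (aeval (fun i => eval τ (G i)) : MvPolynomial (Fin (n + 2)) ℂ →ₐ[ℂ] ℂ) := by
        apply MvPolynomial.algHom_ext
        intro i
        simp
      exact congrArg (fun f => f F) (congrArg DFunLike.coe h4)
    rw [← h3, hFG, map_zero, mul_zero] at h2
    exact h2
  have hlim := fun μ t => limit A c F hF1 ℓ (fun a ha => hℓ ⟨a, ha⟩) μ t
  have hvan := vanish S hSli c F hlim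
  have hF0 : F ≠ 0 := Pool.Agent.TH314.PD.ne_zero_of_smooth hsm
  refine ⟨Submodule.span ℂ (c '' (S : Set (Fin N →₀ ℕ))), ?_, ?_⟩
  · intro z hz
    obtain ⟨w, hw⟩ : ∃ w : (Fin N →₀ ℕ) → ℂ, z = ∑ a ∈ S, w a • c a := by
      rw [Submodule.mem_span_image_finset_iff_exists_fun'] at hz
      obtain ⟨w, hw⟩ := hz
      exact ⟨w, hw.symm⟩
    have h1 : z = fun i => ∑ a ∈ S, w a * c a i := by
      funext i
      rw [hw, Finset.sum_apply]
      rfl
    rw [h1]
    exact hvan w
  · have h1 := coef_span hd F hF hF0 G hdom A hA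
    have h2 : (A : Set (Fin N →₀ ℕ)) = (S : Set (Fin N →₀ ℕ)) ∪ (J : Set (Fin N →₀ ℕ)) := by
      rw [← Finset.coe_union, hS, hJ, Finset.filter_union_filter_not_eq]
    change Submodule.span ℂ (c '' (A : Set (Fin N →₀ ℕ))) = ⊤ at h1
    rw [h2, Set.image_union, Submodule.span_union] at h1
    have h3 := Submodule.finrank_add_le_finrank_add_finrank
      (Submodule.span ℂ (c '' (S : Set (Fin N →₀ ℕ)))) (Submodule.span ℂ (c '' (J : Set (Fin N →₀ ℕ))))
    rw [h1, finrank_top, Module.finrank_fintype_fun_eq_card, Fintype.card_fin] at h3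
    have h4 : Module.finrank ℂ (Submodule.span ℂ (c '' (J : Set (Fin N →₀ ℕ)))) ≤ J.card := by
      rw [← Finset.coe_image]
      exact (finrank_span_finset_le_card _).trans Finset.card_image_le
    have h5 : Module.finrank ℝ (Submodule.span ℝ (Set.range v)) = Module.finrank ℝ
      (Submodule.span ℝ (Set.range fun a : A => vec (a : Fin N →₀ ℕ))) := rfl
    omega

/-- **The number of monomials.** -/
theorem monomials (hd : 2 ≤ d) (F : MvPolynomial (Fin (n + 2)) ℂ) (hF : F.IsHomogeneous d)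
    (hsm : ∀ z : Fin (n + 2) → ℂ, (∀ i, eval z (pderiv i F) = 0) → z = 0)
    (G : Fin (n + 2) → MvPolynomial (Fin N) ℂ) (hFG : aeval G F = 0)
    (hdom : ∀ q (H : MvPolynomial (Fin (n + 2)) ℂ), H.IsHomogeneous q → aeval G H = 0 → F ∣ H)
    (A : Finset (Fin N →₀ ℕ)) (hA : ∀ i, (G i).support ⊆ A) : 5 * n + 6 ≤ 4 * A.card := by
  obtain ⟨W, h1, h2⟩ := linear_space hd F hF hsm G hFG hdom A hA
  have := smooth_bound hd F hF hsm W h1
  omega

end Pool.Agent.Q68.SM
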