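import Pool.Agent.Q68.SM.Color

/-!
# Spaces with few colours embed approximately into spaces of small dimension
-/

set_option autoImplicit false

namespace Pool.Agent.Q68.SM

open Filter Topology

/-- colours bound the dimension -/
theorem covDimLE_of_colors {P : Type} [MetricSpace P] [CompactSpace P] {M : ℕ}
    (h : ∀ δ : ℝ, 0 < δ → ∃ (ι : Type) (L : Fin (M + 1) → P → Option ι), (∀ c, IsColor (L c)) ∧
      (∀ c, Small δ (L c)) ∧ ∀ x, ∃ c, L c x ≠ none) : CovDimLE P M := by
  classical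
  intro U hUo hUc
  obtain ⟨δ, hδ, hδU⟩ := lebesgue_number_lemma_of_metric (isCompact_univ (X := P))
    (c := fun u : U => (u.1 : Set P)) (fun u => hUo u.1 u.2) (by
      intro x _
      obtain ⟨u, hu, hx⟩ := hUc x
      exact Set.mem_iUnion.2 ⟨⟨u, hu⟩, hx⟩)
  obtain ⟨ι, L, h1, h2, h3⟩ := h δ hδ
  obtain ⟨t, ht⟩ := (isCompact_univ (X := P)).elim_finite_subcover
    (fun q : Fin (M + 1) × ι => {x | L q.1 x = some q.2}) (fun q => h1 q.1 q.2) (by
      intro x _
      obtain ⟨c, hc⟩ := h3 x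
      obtain ⟨k, hk⟩ := Option.ne_none_iff_exists'.1 hc
      exact Set.mem_iUnion.2 ⟨(c, k), hk⟩)
  refine ⟨(t.image fun q => {x | L q.1 x = some q.2}).filter Set.Nonempty, ?_, ?_, ?_, ?_⟩
  · intro v hv
    obtain ⟨q, -, rfl⟩ := Finset.mem_image.1 (Finset.mem_filter.1 hv).1
    exact h1 q.1 q.2
  · intro x
    obtain ⟨q, hq, hx⟩ := Set.mem_iUnion₂.1 (ht (Set.mem_univ x))
    exact ⟨_, Finset.mem_filter.2 ⟨Finset.mem_image_of_mem _ hq, ⟨x, hx⟩⟩, hx⟩
  · intro v hv
    obtain ⟨hv1, x, hx⟩ := Finset.mem_filter.1 hv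
    obtain ⟨q, -, rfl⟩ := Finset.mem_image.1 hv1
    obtain ⟨u, hu⟩ := hδU x (Set.mem_univ x)
    refine ⟨u.1, u.2, fun y hy => hu ?_⟩
    exact Metric.mem_ball.2 (h2 q.1 y x q.2 hy hx)
  · intro x
    have hinj : ∀ v : {v : ((t.image fun q : Fin (M + 1) × ι => {x | L q.1 x = some q.2}).filter
        Set.Nonempty) // x ∈ v.1}, ∃ c : Fin (M + 1), v.1.1 = {y | L c y = L c x} := by
      rintro ⟨⟨v, hv⟩, hx⟩
      obtain ⟨q, -, rfl⟩ := Finset.mem_image.1 (Finset.mem_filter.1 hv).1
      refine ⟨q.1, ?_⟩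
      have hx' : L q.1 x = some q.2 := hx
      show {y | L q.1 y = some q.2} = _
      rw [hx']
    choose col hcol using hinj
    have := Nat.card_le_card_of_injective col (fun v v' hvv => by
      apply Subtype.ext
      apply Subtype.ext
      rw [hcol v, hcol v', hvv])
    rwa [Nat.card_fin] at this

/-- the points of a cube with at most `M` nonzero coordinates -/
def Pol (K : Type) [Fintype K] (M : ℕ) : Type :=
  {p : K → ℝ // (∀ k, p k ∈ Set.Icc (0 : ℝ) 1) ∧ Nat.card {k // p k ≠ 0} ≤ M}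

noncomputable instance (K : Type) [Fintype K] (M : ℕ) : MetricSpace (Pol K M) :=
  inferInstanceAs (MetricSpace {p : K → ℝ // _})

instance (K : Type) [Fintype K] (M : ℕ) : CompactSpace (Pol K M) := by
  classical
  have e : {p : K → ℝ | (∀ k, p k ∈ Set.Icc (0 : ℝ) 1) ∧ Nat.card {k // p k ≠ 0} ≤ M} =
      ⋃ T ∈ {T : Finset K | T.card ≤ M},
        (Set.univ.pi (fun _ => Set.Icc (0 : ℝ) 1) ∩ ⋂ k ∈ Tᶜ, {p : K → ℝ | p k = 0}) := by
    ext p
    simp only [Set.mem_setOf_eq, Set.mem_iUnion, Set.mem_inter_iff, Set.mem_pi, Set.mem_univ,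
      forall_true_left, Set.mem_iInter, exists_prop, Finset.mem_compl]
    constructor
    · rintro ⟨h1, h2⟩
      refine ⟨Finset.univ.filter fun k => p k ≠ 0, ?_, h1, ?_⟩
      · rwa [Nat.card_eq_fintype_card, Fintype.card_subtype] at h2
      · intro k hk
        by_contra h
        exact hk (Finset.mem_filter.2 ⟨Finset.mem_univ _, h⟩)
    · rintro ⟨T, hT, h1, h2⟩
      refine ⟨h1, ?_⟩
      rw [Nat.card_eq_fintype_card, Fintype.card_subtype]
      refine (Finset.card_le_card fun k hk => ?_).trans hT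
      by_contra h
      exact (Finset.mem_filter.1 hk).2 (h2 k h)
  have hc : IsCompact {p : K → ℝ | (∀ k, p k ∈ Set.Icc (0 : ℝ) 1) ∧
      Nat.card {k // p k ≠ 0} ≤ M} := by
    rw [e]
    refine (Set.toFinite _).isCompact_biUnion fun T _ => ?_
    refine (isCompact_univ_pi fun _ => isCompact_Icc).inter_right ?_
    exact isClosed_biInter fun k _ => isClosed_eq (continuous_apply k) continuous_const
  exact isCompact_iff_compactSpace.1 hc

theorem covDimLE_pol (K : Type) [Fintype K] (M : ℕ) : CovDimLE (Pol K M) M := by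
  classical
  refine covDimLE_of_colors fun δ hδ => ?_
  obtain ⟨N, hN⟩ := exists_nat_gt (1 / δ)
  have hN0 : (0 : ℝ) < N := lt_trans (by positivity) hN
  let θ : Fin (M + 1) → ℝ := fun j => ((j : ℕ) + 1) / (M + 2)
  have hθ : ∀ j, 0 < θ j ∧ θ j < 1 := by
    intro j
    constructor
    · positivity
    · simp only [θ]
      rw [div_lt_one (by positivity)]
      have : ((j : ℕ) : ℝ) < M + 1 := by exact_mod_cast j.2
      linarith
  let L : Fin (M + 1) → Pol K M → Option (K → ℤ) := fun j p =>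
    if ∀ k, ((⌊N * p.1 k - θ j⌋ : ℤ) : ℝ) ≠ N * p.1 k - θ j then
      some fun k => ⌊N * p.1 k - θ j⌋ else none
  have hL : ∀ j p z, L j p = some z ↔ ∀ k, (z k : ℝ) < N * p.1 k - θ j ∧
      N * p.1 k - θ j < z k + 1 := by
    intro j p z
    constructor
    · intro h
      by_cases h0 : ∀ k, ((⌊N * p.1 k - θ j⌋ : ℤ) : ℝ) ≠ N * p.1 k - θ j
      · have e : L j p = some fun k => ⌊N * p.1 k - θ j⌋ := if_pos h0
        rw [e] at h
        obtain rfl := Option.some.inj h
        intro k
        exact ⟨lt_of_le_of_ne (Int.floor_le _) (h0 k), Int.lt_floor_add_one _⟩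
      · have e : L j p = none := if_neg h0
        rw [e] at h
        cases h
    · intro h
      have hfl : ∀ k, ⌊N * p.1 k - θ j⌋ = z k := fun k =>
        Int.floor_eq_iff.2 ⟨(h k).1.le, (h k).2⟩
      have e : L j p = some fun k => ⌊N * p.1 k - θ j⌋ := if_pos fun k => by
        rw [hfl k]; exact (h k).1.ne
      rw [e]
      congr 1
      funext k
      exact hfl k
  refine ⟨K → ℤ, L, ?_, ?_, ?_⟩
  · intro j z
    have e : {p | L j p = some z} = ⋂ k, ({p : Pol K M | (z k : ℝ) < N * p.1 k - θ j} ∩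
        {p : Pol K M | N * p.1 k - θ j < z k + 1}) := by
      ext p
      simp only [Set.mem_setOf_eq, Set.mem_iInter, Set.mem_inter_iff]
      exact hL j p z
    rw [e]
    have hc : ∀ k, Continuous fun p : Pol K M => N * p.1 k - θ j := fun k =>
      (continuous_const.mul ((continuous_apply k).comp continuous_subtype_val)).sub continuous_const
    exact isOpen_iInter_of_finite fun k => (isOpen_lt continuous_const (hc k)).inter
      (isOpen_lt (hc k) continuous_const)
  · intro j p q z hp hq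
    have h1 := (hL j p z).1 hp
    have h2 := (hL j q z).1 hq
    show dist p.1 q.1 < δ
    rw [dist_pi_lt_iff hδ]
    intro k
    rw [Real.dist_eq]
    obtain ⟨h3, h4⟩ := h1 k
    obtain ⟨h5, h6⟩ := h2 k
    have h7 : |N * (p.1 k - q.1 k)| < 1 := by
      rw [abs_lt]
      constructor <;> nlinarith
    rw [abs_mul, abs_of_pos hN0] at h7
    have h8 : 1 < N * δ := by
      rw [div_lt_iff₀ hδ] at hN
      linarith
    by_contra h9
    push Not at h9
    have : (N : ℝ) * δ ≤ N * |p.1 k - q.1 k| := mul_le_mul_of_nonneg_left h9 hN0.le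
    linarith
  · intro p
    by_contra hcon
    push Not at hcon
    have hbad : ∀ j, ∃ k, ((⌊N * p.1 k - θ j⌋ : ℤ) : ℝ) = N * p.1 k - θ j := by
      intro j
      by_contra h
      push Not at h
      have e : L j p = some fun k => ⌊N * p.1 k - θ j⌋ := if_pos h
      rw [hcon j] at e
      cases e
    choose k hk using hbad
    have hk0 : ∀ j, p.1 (k j) ≠ 0 := by
      intro j h
      have h1 := hk j
      rw [h, mul_zero, zero_sub] at h1
      have h2 : ⌊-θ j⌋ = -1 := by
        rw [Int.floor_eq_iff]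
        push_cast
        constructor <;> linarith [(hθ j).1, (hθ j).2]
      rw [h2] at h1
      push_cast at h1
      linarith [(hθ j).2]
    have hinj : Function.Injective fun j => (⟨k j, hk0 j⟩ : {k // p.1 k ≠ 0}) := by
      intro j j' h
      have h1 : k j = k j' := congrArg Subtype.val h
      have h2 := hk j
      have h3 := hk j'
      rw [← h1] at h3
      have h4 : ((⌊N * p.1 (k j) - θ j'⌋ - ⌊N * p.1 (k j) - θ j⌋ : ℤ) : ℝ) = θ j - θ j' := by
        push_cast
        rw [h2, h3]; ring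
      have h5 : |((⌊N * p.1 (k j) - θ j'⌋ - ⌊N * p.1 (k j) - θ j⌋ : ℤ) : ℝ)| < 1 := by
        rw [h4, abs_lt]
        constructor <;> linarith [(hθ j).1, (hθ j).2, (hθ j').1, (hθ j').2]
      have h6 : ⌊N * p.1 (k j) - θ j'⌋ - ⌊N * p.1 (k j) - θ j⌋ = 0 := by
        rw [← Int.cast_abs] at h5
        have : |⌊N * p.1 (k j) - θ j'⌋ - ⌊N * p.1 (k j) - θ j⌋| < 1 := by exact_mod_cast h5
        exact Int.abs_lt_one_iff.1 this
      rw [h6, Int.cast_zero] at h4
      have h7 : θ j = θ j' := by linarith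
      simp only [θ] at h7
      have h8 : ((j : ℕ) : ℝ) + 1 = ((j' : ℕ) : ℝ) + 1 := by
        field_simp at h7
        linarith
      have h9 : ((j : ℕ) : ℝ) = ((j' : ℕ) : ℝ) := by linarith
      exact Fin.ext (by exact_mod_cast h9)
    have h1 := Nat.card_le_card_of_injective _ hinj
    rw [Nat.card_fin] at h1
    have h2 := p.2.2
    omega

/-- colours bound `Widim` -/
theorem widim_le {Z : Type} [MetricSpace Z] [CompactSpace Z] {ε : ℝ} {M : ℕ} {ι : Type}
    {L : Fin M → Z → Option ι} (h1 : ∀ c, IsColor (L c)) (h2 : ∀ c, Small ε (L c))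
    (h3 : ∀ x, ∃ c, L c x ≠ none) : widim ε Z ≤ (M : EReal) := by
  classical
  obtain ⟨t, ht⟩ := (isCompact_univ (X := Z)).elim_finite_subcover
    (fun q : Fin M × ι => {x | L q.1 x = some q.2}) (fun q => h1 q.1 q.2) (by
      intro x _
      obtain ⟨c, hc⟩ := h3 x
      obtain ⟨k, hk⟩ := Option.ne_none_iff_exists'.1 hc
      exact Set.mem_iUnion.2 ⟨(c, k), hk⟩)
  have hg : ∀ q : t, ∃ g : Z → ℝ, Continuous g ∧ (∀ x, 0 ≤ g x) ∧
      ∀ x, 0 < g x ↔ x ∈ {x | L q.1.1 x = some q.1.2} := fun q => exists_fun (h1 _ _)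
  choose g hgc hg0 hgpos using hg
  have hmin : ∀ (q : t) x, min 1 (g q x) ≠ 0 ↔ L q.1.1 x = some q.1.2 := by
    intro q x
    have h := hgpos q x
    constructor
    · intro h4
      refine h.1 ?_
      by_contra h5
      have h6 : g q x = 0 := le_antisymm (not_lt.1 h5) (hg0 q x)
      rw [h6] at h4
      exact h4 (min_eq_right zero_le_one)
    · intro h4
      exact (lt_min one_pos (h.2 h4)).ne'
  let f : Z → Pol t M := fun x => ⟨fun q => min 1 (g q x), by
    refine ⟨fun q => ⟨le_min zero_le_one (hg0 q x), min_le_left _ _⟩, ?_⟩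
    have hinj : Function.Injective fun q : {q : t // min 1 (g q x) ≠ 0} => q.1.1.1 := by
      intro q q' h
      have h4 := (hmin q.1 x).1 q.2
      have h5 := (hmin q'.1 x).1 q'.2
      have h' : q.1.1.1 = q'.1.1.1 := h
      rw [← h', h4] at h5
      apply Subtype.ext
      apply Subtype.ext
      exact Prod.ext h' (Option.some.inj h5)
    have := Nat.card_le_card_of_injective _ hinj
    rwa [Nat.card_fin] at this⟩
  have hfc : Continuous f := Continuous.subtype_mk
    (continuous_pi fun q => continuous_const.min (hgc q)) _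
  have hfe : ∀ x x', f x = f x' → dist x x' < ε := by
    intro x x' h
    obtain ⟨q, hq, hx⟩ := Set.mem_iUnion₂.1 (ht (Set.mem_univ x))
    have h4 : min 1 (g ⟨q, hq⟩ x) = min 1 (g ⟨q, hq⟩ x') := congrFun (congrArg Subtype.val h) ⟨q, hq⟩
    have h5 := (hmin ⟨q, hq⟩ x).2 hx
    rw [h4] at h5
    exact h2 q.1 x x' q.2 hx ((hmin ⟨q, hq⟩ x').1 h5)
  have key : widim ε Z ≤ covDim (Pol t M) := by
    unfold widim
    refine iInf_le_of_le (Pol t M) ?_
    refine iInf_le_of_le (inferInstance : TopologicalSpace (Pol t M)) ?_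
    refine iInf_le_of_le (inferInstance : CompactSpace (Pol t M)) ?_
    refine iInf_le_of_le (inferInstance : TopologicalSpace.MetrizableSpace (Pol t M)) ?_
    exact iInf_le_of_le f (iInf_le_of_le hfc (iInf_le _ hfe))
  refine key.trans ?_
  unfold covDim
  split_ifs with h
  · exact bot_le
  · exact iInf_le_of_le M (iInf_le _ (covDimLE_pol t M))

end Pool.Agent.Q68.SM
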