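import Pool.Agent.Q68.SM.Core

/-!
# Actions of infinite sofic groups on finite-dimensional spaces
-/

set_option autoImplicit false

namespace Pool.Agent.Q68.SM

open Filter Topology

theorem eventually_nonFree {G : Type} [Group G] {d : ℕ → ℕ}
    {σ : ∀ i, G → Equiv.Perm (Fin (d i))} (hσ : IsSoficApprox σ) (F : Finset G) {κ : ℝ}
    (hκ : 0 < κ) : ∀ᶠ i in atTop, ((nonFree (σ i) F).card : ℝ) ≤ κ * d i := by
  classical
  have hF1 : (0 : ℝ) < (F.card : ℝ) ^ 2 + 1 := by positivity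
  have h1 : ∀ p ∈ (F ×ˢ F).filter (fun p => p.1 ≠ p.2), ∀ᶠ i in atTop,
      ((Finset.univ.filter fun k => σ i p.1 k = σ i p.2 k).card : ℝ) ≤
        κ / ((F.card : ℝ) ^ 2 + 1) * d i := by
    intro p hp
    have hne := (Finset.mem_filter.1 hp).2
    have h2 : ∀ᶠ i in atTop, 1 - κ / ((F.card : ℝ) ^ 2 + 1) <
        (Nat.card {k : Fin (d i) // σ i p.1 k ≠ σ i p.2 k} : ℝ) / d i :=
      (hσ.free p.1 p.2 hne).eventually (lt_mem_nhds (by
        have : 0 < κ / ((F.card : ℝ) ^ 2 + 1) := by positivity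
        linarith))
    filter_upwards [h2, hσ.tendsto.eventually_gt_atTop 0] with i h3 hd
    have hd' : (0 : ℝ) < d i := by exact_mod_cast hd
    rw [lt_div_iff₀ hd', Nat.card_eq_fintype_card, Fintype.card_subtype] at h3
    have h4 : (Finset.univ.filter fun k => σ i p.1 k = σ i p.2 k).card +
        (Finset.univ.filter fun k => σ i p.1 k ≠ σ i p.2 k).card = d i := by
      rw [Finset.card_filter_add_card_filter_not, Finset.card_univ, Fintype.card_fin]
    have h5 : ((Finset.univ.filter fun k => σ i p.1 k = σ i p.2 k).card : ℝ) +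
        ((Finset.univ.filter fun k => σ i p.1 k ≠ σ i p.2 k).card : ℝ) = d i := by
      exact_mod_cast h4
    nlinarith
  have h2 := (Filter.eventually_all_finset _).2 h1
  filter_upwards [h2] with i hi
  have hsub : nonFree (σ i) F ⊆ ((F ×ˢ F).filter (fun p => p.1 ≠ p.2)).biUnion fun p =>
      Finset.univ.filter fun k => σ i p.1 k = σ i p.2 k := by
    intro v hv
    obtain ⟨-, s, hs, t, ht, hst, h⟩ := Finset.mem_filter.1 hv
    exact Finset.mem_biUnion.2 ⟨(s, t), Finset.mem_filter.2 ⟨Finset.mem_product.2 ⟨hs, ht⟩, hst⟩,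
      Finset.mem_filter.2 ⟨Finset.mem_univ _, h⟩⟩
  have h3 : ((nonFree (σ i) F).card : ℝ) ≤ ∑ p ∈ (F ×ˢ F).filter (fun p => p.1 ≠ p.2),
      ((Finset.univ.filter fun k => σ i p.1 k = σ i p.2 k).card : ℝ) := by
    exact_mod_cast (Finset.card_le_card hsub).trans Finset.card_biUnion_le
  refine h3.trans ((Finset.sum_le_sum hi).trans ?_)
  rw [Finset.sum_const, nsmul_eq_mul]
  have h4 : (((F ×ˢ F).filter (fun p => p.1 ≠ p.2)).card : ℝ) ≤ (F.card : ℝ) ^ 2 := by
    have : ((F ×ˢ F).filter (fun p => p.1 ≠ p.2)).card ≤ F.card ^ 2 := by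
      refine (Finset.card_filter_le _ _).trans ?_
      rw [Finset.card_product, sq]
    exact_mod_cast this
  have h5 : (0 : ℝ) ≤ κ / ((F.card : ℝ) ^ 2 + 1) * d i := by positivity
  calc _ ≤ (F.card : ℝ) ^ 2 * (κ / ((F.card : ℝ) ^ 2 + 1) * d i) :=
        mul_le_mul_of_nonneg_right h4 h5
    _ ≤ ((F.card : ℝ) ^ 2 + 1) * (κ / ((F.card : ℝ) ^ 2 + 1) * d i) :=
        mul_le_mul_of_nonneg_right (by linarith) h5
    _ = κ * d i := by field_simp

/-- The sofic mean dimension of an action of an infinite group on a finite-dimensional space is at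
most zero. -/
theorem mdim_le_zero {G : Type} [Group G] [Infinite G] {d : ℕ → ℕ}
    {σ : ∀ i, G → Equiv.Perm (Fin (d i))} (hσ : IsSoficApprox σ)
    {X : Type} [MetricSpace X] [CompactSpace X] [MulAction G X] [ContinuousConstSMul G X]
    {n : ℕ} (hX : CovDimLE X n) : mdim X σ ≤ 0 := by
  refine iSup₂_le fun ε hε => ?_
  refine le_of_forall_gt_imp_ge_of_dense fun c hc => ?_
  obtain ⟨κ, hκ0, hκc⟩ := EReal.lt_iff_exists_real_btwn.1 hc
  have hκ : 0 < κ := by exact_mod_cast hκ0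
  refine le_trans ?_ hκc.le
  -- the finite set `F`
  obtain ⟨k, hk⟩ := exists_nat_gt ((n : ℝ) / (κ / 4))
  obtain ⟨F, hFk⟩ := Infinite.exists_subset_card_eq G (k + 1)
  have hF : F.Nonempty := by rw [← Finset.card_pos]; omega
  have hFc : (n : ℝ) ≤ κ / 4 * F.card := by
    rw [div_lt_iff₀ (by positivity)] at hk
    rw [hFk]
    push_cast
    nlinarith
  obtain ⟨η, hη, hw⟩ := widim_mapSet_le hX hε hF
  have hF0 : (0 : ℝ) < F.card := by exact_mod_cast hF.card_pos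
  -- the number `δ`
  let δ : ℝ := min 1 (κ / 4 * η ^ 2 / (2 * (n + 1) * (F.card : ℝ) ^ 2))
  have hδ : 0 < δ := lt_min one_pos (by positivity)
  have hδ2 : ((n : ℝ) + 1) * (2 * (F.card : ℝ) ^ 2 * (δ ^ 2 / η ^ 2)) ≤ κ / 4 := by
    have h1 : δ ^ 2 ≤ κ / 4 * η ^ 2 / (2 * (n + 1) * (F.card : ℝ) ^ 2) := by
      have h2 : δ ≤ 1 := min_le_left _ _
      have h3 : δ ≤ κ / 4 * η ^ 2 / (2 * (n + 1) * (F.card : ℝ) ^ 2) := min_le_right _ _
      nlinarith
    calc ((n : ℝ) + 1) * (2 * (F.card : ℝ) ^ 2 * (δ ^ 2 / η ^ 2))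
        ≤ ((n : ℝ) + 1) * (2 * (F.card : ℝ) ^ 2 *
          ((κ / 4 * η ^ 2 / (2 * (n + 1) * (F.card : ℝ) ^ 2)) / η ^ 2)) := by gcongr
      _ = κ / 4 := by field_simp
  refine (iInf_le_of_le F (iInf_le_of_le δ (iInf_le_of_le hδ le_rfl))).trans ?_
  refine limsup_le_of_le (by isBoundedDefault) ?_
  have hnf := eventually_nonFree hσ F (κ := κ / (4 * (n + 1))) (by positivity)
  have hd1 : ∀ᶠ i in atTop, 4 / κ ≤ (d i : ℝ) :=
    (tendsto_natCast_atTop_atTop.comp hσ.tendsto).eventually_ge_atTop _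
  filter_upwards [hnf, hd1, hσ.tendsto.eventually_gt_atTop 0] with i h1 h2 h3
  have hd' : (0 : ℝ) < d i := by exact_mod_cast h3
  obtain ⟨W, hW1, hW2⟩ := exists_separated (σ i) hF
  have h4 := hw δ (d i) (σ i) W hW2
  have h5 : (W.card : ℝ) * F.card ≤ d i + (nonFree (σ i) F).card * F.card := by exact_mod_cast hW1
  have h6 : ((n * W.card + (n + 1) * ⌊2 * (F.card : ℝ) ^ 2 * (δ ^ 2 / η ^ 2 * d i)⌋₊ + 1 : ℕ) : ℝ) ≤
      κ * d i := by
    push_cast
    have h7 : (⌊2 * (F.card : ℝ) ^ 2 * (δ ^ 2 / η ^ 2 * d i)⌋₊ : ℝ) ≤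
        2 * (F.card : ℝ) ^ 2 * (δ ^ 2 / η ^ 2 * d i) := Nat.floor_le (by positivity)
    have h8 : ((n : ℝ) + 1) * (⌊2 * (F.card : ℝ) ^ 2 * (δ ^ 2 / η ^ 2 * d i)⌋₊ : ℝ) ≤
        κ / 4 * d i := by
      calc _ ≤ ((n : ℝ) + 1) * (2 * (F.card : ℝ) ^ 2 * (δ ^ 2 / η ^ 2 * d i)) := by gcongr
        _ = (((n : ℝ) + 1) * (2 * (F.card : ℝ) ^ 2 * (δ ^ 2 / η ^ 2))) * d i := by ring
        _ ≤ _ := mul_le_mul_of_nonneg_right hδ2 hd'.le
    have h9 : (1 : ℝ) ≤ κ / 4 * d i := by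
      rw [div_le_iff₀ hκ] at h2
      linarith
    have h10 : (n : ℝ) * (nonFree (σ i) F).card ≤ κ / 4 * d i := by
      calc (n : ℝ) * (nonFree (σ i) F).card ≤ (n : ℝ) * (κ / (4 * (n + 1)) * d i) := by gcongr
        _ ≤ ((n : ℝ) + 1) * (κ / (4 * (n + 1)) * d i) := by gcongr; linarith
        _ = κ / 4 * d i := by field_simp
    have h11 : (n : ℝ) * W.card ≤ κ / 4 * d i + κ / 4 * d i := by
      have h12 : (n : ℝ) * W.card * F.card ≤ (κ / 4 * d i + κ / 4 * d i) * F.card := by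
        calc (n : ℝ) * W.card * F.card = n * (W.card * F.card) := by ring
          _ ≤ n * (d i + (nonFree (σ i) F).card * F.card) := by gcongr
          _ = n * d i + n * (nonFree (σ i) F).card * F.card := by ring
          _ ≤ κ / 4 * F.card * d i + κ / 4 * d i * F.card := by gcongr
          _ = _ := by ring
      exact le_of_mul_le_mul_right h12 hF0
    linarith
  have h7 : widim ε (MapSet X F δ (σ i)) ≤ ((κ * d i : ℝ) : EReal) := h4.trans (by
    rw [← EReal.coe_natCast]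
    exact EReal.coe_le_coe_iff.2 h6)
  calc widim ε (MapSet X F δ (σ i)) / (d i : EReal) ≤ ((κ * d i : ℝ) : EReal) / (d i : EReal) :=
        EReal.div_le_div_right_of_nonneg (by exact_mod_cast Nat.zero_le _) h7
    _ = ((κ * d i / d i : ℝ) : EReal) := by rw [EReal.coe_div]; rfl
    _ = (κ : EReal) := by rw [mul_div_cancel_right₀ _ hd'.ne']

end Pool.Agent.Q68.SM
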